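import Pool.Agent.Helper750.Eff

set_option autoImplicit false

/-!
Universal trees, comparison of trees, and the basic non-reducibility lemma for effectively closed
sets.
-/

namespace Pool.Agent.Helper750.Basis

open Encodable Nat.Partrec Pool.Agent.Helper750.Eff

/-- The argument fed to the code. -/
def arg (m : ℕ) (s t : List ℕ) (j : ℕ) : ((List ℕ × ℕ) × List ℕ) × ℕ :=
  (((s.take j, m), t.take j), j)

/-- A universal decidable relation on finite sequences. -/
def UR (i m : ℕ) (s t : List ℕ) : Bool :=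
  decide (∀ j < t.length + 1,
    Code.evaln t.length (Denumerable.ofNat Code i) (encode (arg m s t j)) ≠ some 0)

theorem UR_primrec : Primrec fun p : (ℕ × ℕ) × (List ℕ × List ℕ) => UR p.1.1 p.1.2 p.2.1 p.2.2 := by
  have hR : PrimrecRel fun (j : ℕ) (p : (ℕ × ℕ) × (List ℕ × List ℕ)) =>
      Code.evaln p.2.2.length (Denumerable.ofNat Code p.1.1)
        (encode (arg p.1.2 p.2.1 p.2.2 j)) ≠ some 0 := by
    have hs : Primrec fun q : ℕ × ((ℕ × ℕ) × (List ℕ × List ℕ)) => q.2.2.1 :=
      Primrec.fst.comp (Primrec.snd.comp Primrec.snd)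
    have ht : Primrec fun q : ℕ × ((ℕ × ℕ) × (List ℕ × List ℕ)) => q.2.2.2 :=
      Primrec.snd.comp (Primrec.snd.comp Primrec.snd)
    have hi : Primrec fun q : ℕ × ((ℕ × ℕ) × (List ℕ × List ℕ)) => q.2.1.1 :=
      Primrec.fst.comp (Primrec.fst.comp Primrec.snd)
    have hm : Primrec fun q : ℕ × ((ℕ × ℕ) × (List ℕ × List ℕ)) => q.2.1.2 :=
      Primrec.snd.comp (Primrec.fst.comp Primrec.snd)
    have harg : Primrec fun q : ℕ × ((ℕ × ℕ) × (List ℕ × List ℕ)) =>
        arg q.2.1.2 q.2.2.1 q.2.2.2 q.1 :=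
      Primrec.pair (Primrec.pair (Primrec.pair (Primrec.list_take.comp Primrec.fst hs) hm)
        (Primrec.list_take.comp Primrec.fst ht)) Primrec.fst
    have hev : Primrec fun q : ℕ × ((ℕ × ℕ) × (List ℕ × List ℕ)) =>
        Code.evaln q.2.2.2.length (Denumerable.ofNat Code q.2.1.1)
          (encode (arg q.2.1.2 q.2.2.1 q.2.2.2 q.1)) :=
      Code.primrec_evaln.comp (Primrec.pair (Primrec.pair (Primrec.list_length.comp ht)
        ((Primrec.ofNat Code).comp hi)) (Primrec.encode.comp harg))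
    exact (Primrec.eq.comp hev (Primrec.const (some 0))).not
  have h2 := (PrimrecRel.forall_mem_list hR).comp
    (f := fun p : (ℕ × ℕ) × (List ℕ × List ℕ) => List.range (p.2.2.length + 1)) (g := fun p => p)
    (Primrec.list_range.comp (Primrec.succ.comp (Primrec.list_length.comp
      (Primrec.snd.comp Primrec.snd)))) Primrec.id
  have h3 : PrimrecPred fun p : (ℕ × ℕ) × (List ℕ × List ℕ) => ∀ j < p.2.2.length + 1,
      Code.evaln p.2.2.length (Denumerable.ofNat Code p.1.1)
        (encode (arg p.1.2 p.2.1 p.2.2 j)) ≠ some 0 :=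
    h2.of_eq fun p => by simp only [List.mem_range]
  exact h3.decide

theorem UR_true_iff (i m : ℕ) (s t : List ℕ) : UR i m s t = true ↔
    ∀ j ≤ t.length,
      Code.evaln t.length (Denumerable.ofNat Code i) (encode (arg m s t j)) ≠ some 0 := by
  simp only [UR, decide_eq_true_eq, Nat.lt_succ_iff]

theorem UR_nil (i m : ℕ) (s : List ℕ) : UR i m s [] = true := by
  rw [UR_true_iff]
  intro j _
  simp [Code.evaln]

/-- The universal tree. -/
def T (i : ℕ) (x : ℕ → ℕ) (m k : ℕ) (t : List ℕ) : Prop :=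
  UR i (Nat.pair m k) (pfx x t.length) t = true

theorem UR_closed {i m : ℕ} {x : ℕ → ℕ} {t : List ℕ} {a : ℕ}
    (h : UR i m (pfx x (t ++ [a]).length) (t ++ [a]) = true) : UR i m (pfx x t.length) t = true := by
  rw [UR_true_iff] at h ⊢
  intro j hj hcon
  have hl : (t ++ [a]).length = t.length + 1 := by simp
  refine h j (by omega) ?_
  have h1 : arg m (pfx x (t ++ [a]).length) (t ++ [a]) j = arg m (pfx x t.length) t j := by
    unfold arg
    rw [hl, pfx_take x (by omega), pfx_take x hj, List.take_append_of_le_length hj]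
  rw [h1, hl]
  exact Code.evaln_mono (Nat.le_succ _) hcon

theorem universal {P : (ℕ → ℕ) × ℕ → Prop} (hP : S11 P) :
    ∃ i, ∀ x m, P (x, m) ↔ ∃ p, ∀ l, UR i m (pfx x l) (pfx p l) = true := by
  obtain ⟨Q, ⟨R, hR, hQ⟩, hPQ⟩ := hP
  have hR' : Primrec (fun q : ((List ℕ × ℕ) × List ℕ) × ℕ => R q) := hR
  obtain ⟨c, hc⟩ := Code.exists_code.mp hR'.to_comp
  have hev : ∀ q : ((List ℕ × ℕ) × List ℕ) × ℕ, c.eval (encode q) = Part.some (encode (R q)) := by
    intro q
    rw [hc]
    beta_reduce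
    rw [encodek, Part.coe_some, Part.bind_some]
    exact Part.map_some _ _
  refine ⟨encode c, fun x m => ?_⟩
  rw [hPQ]
  refine exists_congr fun p => ?_
  rw [hQ]
  have key : ∀ j, R (Rep.ap ((x, m), p) j, j) = R (((pfx x j, m), pfx p j), j) := fun j => rfl
  simp only [key]
  constructor
  · intro h l
    rw [UR_true_iff]
    intro j hj hcon
    rw [pfx_length] at hj hcon
    have h1 : arg m (pfx x l) (pfx p l) j = (((pfx x j, m), pfx p j), j) := by
      unfold arg
      rw [pfx_take x hj, pfx_take p hj]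
    rw [h1, Denumerable.ofNat_encode] at hcon
    have h2 := Code.evaln_sound hcon
    rw [hev, h j] at h2
    simp at h2
  · intro h j
    by_contra hne
    rw [Bool.not_eq_true] at hne
    have h1 : (0 : ℕ) ∈ c.eval (encode ((((pfx x j, m), pfx p j), j) :
        ((List ℕ × ℕ) × List ℕ) × ℕ)) := by
      rw [hev]
      change R (((pfx x j, m), pfx p j), j) = false at hne
      rw [hne]
      simp
    obtain ⟨k, hk⟩ := Code.evaln_complete.mp h1
    have h2 := h (max k j)
    rw [UR_true_iff] at h2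
    refine h2 j (by simp) ?_
    have h3 : arg m (pfx x (max k j)) (pfx p (max k j)) j = (((pfx x j, m), pfx p j), j) := by
      unfold arg
      rw [pfx_take x (le_max_right _ _), pfx_take p (le_max_right _ _)]
    rw [h3, Denumerable.ofNat_encode, pfx_length]
    exact Code.evaln_mono (le_max_left _ _) hk

/-! ### Simulations between trees -/

/-- Image of a node under the level preserving map given by `h`. -/
def img (h : ℕ → ℕ) (t : List ℕ) : List ℕ :=
  (List.range t.length).map fun j => h (encode (t.take (j + 1)))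

@[simp] theorem img_length (h : ℕ → ℕ) (t : List ℕ) : (img h t).length = t.length := by simp [img]

theorem img_append (h : ℕ → ℕ) (t : List ℕ) (a : ℕ) :
    img h (t ++ [a]) = img h t ++ [h (encode (t ++ [a]))] := by
  unfold img
  rw [List.length_append, List.length_singleton, List.range_succ, List.map_append]
  congr 1
  · refine List.map_congr_left fun j hj => ?_
    rw [List.mem_range] at hj
    rw [List.take_append_of_le_length hj]
  · simp only [List.map_cons, List.map_nil]
    rw [List.take_of_length_le (by simp)]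

theorem img_pfx (h p : ℕ → ℕ) (l : ℕ) :
    img h (pfx p l) = pfx (fun j => h (encode (pfx p (j + 1)))) l := by
  unfold img
  rw [pfx_length, pfx]
  refine List.map_congr_left fun j hj => ?_
  rw [List.mem_range] at hj
  have := pfx_take p (Nat.succ_le_of_lt hj)
  rw [pfx] at this
  rw [pfx]
  rw [this, pfx]

def Leq (T S : List ℕ → Prop) : Prop := ∃ h : ℕ → ℕ, ∀ t, T t → S (img h t)

def Ill (T : List ℕ → Prop) : Prop := ∃ p : ℕ → ℕ, ∀ l, T (pfx p l)

theorem Leq.ill {T S : List ℕ → Prop} (h : Leq T S) (hT : Ill T) : Ill S := by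
  obtain ⟨h, hh⟩ := h
  obtain ⟨p, hp⟩ := hT
  exact ⟨_, fun l => by rw [← img_pfx]; exact hh _ (hp l)⟩

def Sim (T S : List ℕ → Prop) (t s : List ℕ) : Prop :=
  ∃ G : List ℕ → List ℕ → Prop, G t s ∧
    ∀ t s, G t s → ∀ a, T (t ++ [a]) → ∃ b, S (s ++ [b]) ∧ G (t ++ [a]) (s ++ [b])

theorem Sim.step {T S : List ℕ → Prop} {t s : List ℕ} (h : Sim T S t s) (a : ℕ)
    (ha : T (t ++ [a])) : ∃ b, S (s ++ [b]) ∧ Sim T S (t ++ [a]) (s ++ [b]) := by
  obtain ⟨G, hG, hst⟩ := h
  obtain ⟨b, hb, hG'⟩ := hst t s hG a ha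
  exact ⟨b, hb, G, hG', hst⟩

theorem Sim.of_step {T S : List ℕ → Prop} {t s : List ℕ}
    (h : ∀ a, T (t ++ [a]) → ∃ b, S (s ++ [b]) ∧ Sim T S (t ++ [a]) (s ++ [b])) :
    Sim T S t s := by
  refine ⟨fun t' s' => Sim T S t' s' ∨ (t' = t ∧ s' = s), Or.inr ⟨rfl, rfl⟩, ?_⟩
  rintro t' s' (hs | ⟨rfl, rfl⟩) a ha
  · obtain ⟨b, hb, hs'⟩ := hs.step a ha
    exact ⟨b, hb, Or.inl hs'⟩
  · obtain ⟨b, hb, hs'⟩ := h a ha
    exact ⟨b, hb, Or.inl hs'⟩

theorem Sim.refl (T : List ℕ → Prop) (t : List ℕ) : Sim T T t t :=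
  ⟨Eq, rfl, fun _ _ e a ha => by subst e; exact ⟨a, ha, rfl⟩⟩

theorem Sim.trans {T S U : List ℕ → Prop} {t s u : List ℕ} (h1 : Sim T S t s) (h2 : Sim S U s u) :
    Sim T U t u := by
  refine ⟨fun t u => ∃ s, Sim T S t s ∧ Sim S U s u, ⟨s, h1, h2⟩, ?_⟩
  rintro t u ⟨s, h1, h2⟩ a ha
  obtain ⟨b, hb, h1'⟩ := h1.step a ha
  obtain ⟨c, hc, h2'⟩ := h2.step b hb
  exact ⟨c, hc, _, h1', h2'⟩

theorem Sim.of_path {S : List ℕ → Prop} {q : ℕ → ℕ} (hq : ∀ l, S (pfx q l)) (T : List ℕ → Prop)
    (t : List ℕ) (n : ℕ) : Sim T S t (pfx q n) := by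
  refine ⟨fun _ s => ∃ n, s = pfx q n, ⟨n, rfl⟩, ?_⟩
  rintro t _ ⟨n, rfl⟩ a _
  refine ⟨q n, ?_, n + 1, ?_⟩
  · rw [← pfx_succ]; exact hq _
  · rw [pfx_succ]

theorem Sim.leq {T S : List ℕ → Prop} (hT : ∀ t a, T (t ++ [a]) → T t) (hS : S [])
    (h : Sim T S [] []) : Leq T S := by
  classical
  -- build the image of each node, working with reversed lists
  let nxt : List ℕ → List ℕ → ℕ → ℕ := fun t s a =>
    if hc : ∃ b, S (s ++ [b]) ∧ Sim T S (t ++ [a]) (s ++ [b]) then hc.choose else 0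
  let F : List ℕ → List ℕ := fun r =>
    List.rec (motive := fun _ => List ℕ) [] (fun a r s => s ++ [nxt r.reverse s a]) r
  have hF0 : F [] = [] := rfl
  have hFc : ∀ a r, F (a :: r) = F r ++ [nxt r.reverse (F r) a] := fun a r => rfl
  let h' : ℕ → ℕ := fun u => (F ((Denumerable.ofNat (List ℕ) u).reverse)).getLastD 0
  have himg : ∀ r : List ℕ, img h' r.reverse = F r := by
    intro r
    induction r with
    | nil => rfl
    | cons a r ih =>
      rw [List.reverse_cons, img_append, ih, hFc]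
      congr 2
      change (F ((Denumerable.ofNat (List ℕ) (encode (r.reverse ++ [a]))).reverse)).getLastD 0 = _
      rw [Denumerable.ofNat_encode, List.reverse_append, List.reverse_reverse]
      change (F (a :: r)).getLastD 0 = _
      rw [hFc]
      simp
  have hkey : ∀ r : List ℕ, T r.reverse → S (F r) ∧ Sim T S r.reverse (F r) := by
    intro r
    induction r with
    | nil => intro _; exact ⟨hS, h⟩
    | cons a r ih =>
      intro ht
      rw [List.reverse_cons] at ht ⊢
      obtain ⟨_, hsim⟩ := ih (hT _ _ ht)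
      have hc : ∃ b, S (F r ++ [b]) ∧ Sim T S (r.reverse ++ [a]) (F r ++ [b]) := hsim.step a ht
      rw [hFc]
      have : nxt r.reverse (F r) a = hc.choose := dif_pos hc
      rw [this]
      exact hc.choose_spec
  refine ⟨h', fun t ht => ?_⟩
  have h1 := himg t.reverse
  rw [List.reverse_reverse] at h1
  rw [h1]
  exact (hkey t.reverse (by rw [List.reverse_reverse]; exact ht)).1

def Rel (T : List ℕ → Prop) (t' t : List ℕ) : Prop := ∃ a, t' = t ++ [a] ∧ T t'

theorem acc_of_not_ill {T : List ℕ → Prop} (h0 : T []) (hT : ¬ Ill T) : Acc (Rel T) [] := by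
  classical
  by_contra hacc
  have hstep : ∀ t : {t : List ℕ // ¬ Acc (Rel T) t},
      ∃ a, T (t.1 ++ [a]) ∧ ¬ Acc (Rel T) (t.1 ++ [a]) := by
    rintro ⟨t, ht⟩
    by_contra hcon
    push Not at hcon
    refine ht (Acc.intro _ ?_)
    rintro t' ⟨a, rfl, ha⟩
    exact hcon a ha
  choose a ha hacc' using hstep
  let f : ℕ → {t : List ℕ // ¬ Acc (Rel T) t} := fun n =>
    Nat.rec ⟨[], hacc⟩ (fun _ t => ⟨t.1 ++ [a t], hacc' t⟩) n
  have hf0 : (f 0).1 = [] := rfl
  have hfs : ∀ n, (f (n + 1)).1 = (f n).1 ++ [a (f n)] := fun n => rfl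
  have hp : ∀ n, pfx (fun n => a (f n)) n = (f n).1 := by
    intro n
    induction n with
    | zero => rfl
    | succ n ih => rw [pfx_succ, ih, hfs]
  refine hT ⟨fun n => a (f n), fun l => ?_⟩
  rw [hp]
  cases l with
  | zero => exact h0
  | succ l => rw [hfs]; exact ha _

theorem comparable {T S : List ℕ → Prop} (h0 : T []) :
    Sim T S [] [] ∨ ∃ b, T [b] ∧ Sim S T [] [b] := by
  by_cases hill : Ill T
  · obtain ⟨p, hp⟩ := hill
    right
    refine ⟨p 0, ?_, ?_⟩
    · exact hp 1
    · exact Sim.of_path hp S [] 1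
  · have hacc := acc_of_not_ill h0 hill
    have key : ∀ t, Acc (Rel T) t → ∀ s, Sim T S t s ∨ ∃ a, T (t ++ [a]) ∧ Sim S T s (t ++ [a]) := by
      intro t ht
      induction ht with
      | intro t _ ih =>
        intro s
        by_cases hc : ∀ a, T (t ++ [a]) → ∃ b, S (s ++ [b]) ∧ Sim T S (t ++ [a]) (s ++ [b])
        · exact Or.inl (Sim.of_step hc)
        · push Not at hc
          obtain ⟨a, ha, hb⟩ := hc
          right
          refine ⟨a, ha, Sim.of_step fun b hSb => ?_⟩
          rcases ih (t ++ [a]) ⟨a, rfl, ha⟩ (s ++ [b]) with h | h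
          · exact absurd h (hb b hSb)
          · exact h
    simpa using key [] hacc []

theorem exists_min {T : ℕ → List ℕ → Prop} (h0 : ∀ k, T k []) :
    ∃ k, ∀ k', Sim (T k) (T k') [] [] := by
  by_cases hall : ∀ k, Ill (T k)
  · refine ⟨0, fun k' => ?_⟩
    obtain ⟨q, hq⟩ := hall k'
    exact Sim.of_path hq (T 0) [] 0
  · push Not at hall
    obtain ⟨k0, hk0⟩ := hall
    have hacc := acc_of_not_ill (h0 k0) hk0
    have key : ∀ t, Acc (Rel (T k0)) t → ∀ k, Sim (T k) (T k0) [] t →
        ∃ k, ∀ k', Sim (T k) (T k') [] [] := by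
      intro t ht
      induction ht with
      | intro t _ ih =>
        intro k hk
        by_cases hmin : ∀ k', Sim (T k) (T k') [] []
        · exact ⟨k, hmin⟩
        · push Not at hmin
          obtain ⟨k', hk'⟩ := hmin
          rcases comparable (T := T k) (S := T k') (h0 k) with h | ⟨b, hb, hs⟩
          · exact absurd h hk'
          · obtain ⟨c, hc, hs'⟩ := hk.step b (by simpa using hb)
            refine ih (t ++ [c]) ⟨c, rfl, hc⟩ k' (hs.trans ?_)
            simpa using hs'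
    exact key [] hacc k0 (Sim.refl _ _)

end Pool.Agent.Helper750.Basis
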