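import Pool.Agent.Helper750.Sig

set_option autoImplicit false

/-!
The diagonal equivalence relation built from a given Delta-1-1 relation `E`.
-/

namespace Pool.Agent.Helper750.Diag

open Encodable Pool.Agent.Helper750.Eff Pool.Agent.Helper750.Basis
  Pool.Agent.Helper750.KL Pool.Agent.Helper750.Sig

variable {α : Type} [Rep α]

/-- The finite sequence coded by `j`. -/
def node (j : ℕ) : List ℕ := Denumerable.ofNat (List ℕ) j

theorem node_encode (s : List ℕ) : node (encode s) = s := Denumerable.ofNat_encode s

/-- `j` codes an initial segment of `c`. -/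
def br (c : ℕ → ℕ) (j : ℕ) : Bool := decide (node j = pfx c (node j).length)

theorem br_iff {c : ℕ → ℕ} {j : ℕ} : br c j = true ↔ node j = pfx c (node j).length := by
  simp [br]

theorem br_encode (c : ℕ → ℕ) (n : ℕ) : br c (encode (pfx c n)) = true := by
  rw [br_iff, node_encode, pfx_length]

theorem le_encode_list (l : List ℕ) : l.length ≤ encode l := by
  induction l with
  | nil => simp
  | cons a l ih =>
    rw [encode_list_cons, List.length_cons]
    exact Nat.succ_le_succ (ih.trans (Nat.right_le_pair _ _))

theorem length_node_le (j : ℕ) : (node j).length ≤ j := by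
  have h := le_encode_list (node j)
  have e : encode (node j) = j := Denumerable.encode_ofNat j
  rwa [e] at h

/-- An involution without fixed points. -/
def flp (v : ℕ) : ℕ := if v % 2 = 0 then v + 1 else v - 1

theorem flp_flp (v : ℕ) : flp (flp v) = v := by
  unfold flp
  split_ifs <;> omega

theorem flp_ne (v : ℕ) : flp v ≠ v := by
  unfold flp
  split_ifs <;> omega

/-- The shift of `x` along the branch determined by `d` and `x`. -/
def tau (d x : ℕ → ℕ) : ℕ → ℕ := fun j => if br (join d x) j = true then flp (x j) else x j

/-- `d` codes a partial continuous map whose value at `x` is `y`. -/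
def Ev (d x y : ℕ → ℕ) : Prop :=
  ∀ n, ∃ l, d (Nat.pair (encode (pfx x l)) n) = y n + 1 ∧
    ∀ l', l' < l → d (Nat.pair (encode (pfx x l')) n) = 0

/-- `x` is in the domain of the partial map coded by `d`. -/
def Dom (d x : ℕ → ℕ) : Prop := ∀ n, ∃ l, d (Nat.pair (encode (pfx x l)) n) ≠ 0

theorem Ev.dom {d x y : ℕ → ℕ} (h : Ev d x y) : Dom d x := by
  intro n
  obtain ⟨l, hl, _⟩ := h n
  exact ⟨l, by rw [hl]; exact Nat.succ_ne_zero _⟩

theorem Dom.ev {d x : ℕ → ℕ} (h : Dom d x) : ∃ y, Ev d x y := by
  classical
  refine ⟨fun n => d (Nat.pair (encode (pfx x (Nat.find (h n)))) n) - 1, fun n => ?_⟩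
  refine ⟨Nat.find (h n), ?_, fun l' hl' => ?_⟩
  · have := Nat.find_spec (h n)
    beta_reduce
    omega
  · have := Nat.find_min (h n) hl'
    exact not_not.mp this

theorem Ev.unique {d x y y' : ℕ → ℕ} (h : Ev d x y) (h' : Ev d x y') : y = y' := by
  funext n
  obtain ⟨l, h1, h2⟩ := h n
  obtain ⟨l', h1', h2'⟩ := h' n
  rcases lt_trichotomy l l' with hl | hl | hl
  · have := h2' l hl
    omega
  · subst hl
    omega
  · have := h2 l' hl
    omega

variable (E : (ℕ → ℕ) → (ℕ → ℕ) → Prop)

/-- The diagonal set. -/
def DD (c : ℕ → ℕ) : Prop :=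
  ∃ y y' : ℕ → ℕ, Ev (evn c) (odd c) y ∧ Ev (evn c) (tau (evn c) (odd c)) y' ∧ ¬ E y y'

/-- The diagonal equivalence relation. -/
def G (x y : ℕ → ℕ) : Prop :=
  ∃ k : ℕ, ∃ w : ℕ → ℕ, ∃ n0 : ℕ, (∀ i, i < k → DD E (col w i)) ∧
    ∀ j, n0 ≤ j → x j ≠ y j → ∃ i, i < k ∧ br (col w i) j = true

theorem col_mk (f : ℕ → ℕ → ℕ) (i : ℕ) : col (fun n => f n.unpair.1 n.unpair.2) i = f i := by
  funext n; simp [col]

theorem G_equiv : Equivalence (G E) := by
  refine ⟨fun x => ⟨0, fun _ => 0, 0, by simp, fun j _ h => absurd rfl h⟩, ?_, ?_⟩
  · rintro x y ⟨k, w, n0, h1, h2⟩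
    exact ⟨k, w, n0, h1, fun j hj h => h2 j hj h.symm⟩
  · rintro x y z ⟨k, w, n0, h1, h2⟩ ⟨k', w', n0', h1', h2'⟩
    let f : ℕ → ℕ → ℕ := fun i => if i < k then col w i else col w' (i - k)
    refine ⟨k + k', fun n => f n.unpair.1 n.unpair.2, max n0 n0', ?_, ?_⟩
    · intro i hi
      rw [col_mk]
      by_cases hik : i < k
      · simp only [f, hik, if_true]
        exact h1 i hik
      · simp only [f, hik, if_false]
        exact h1' (i - k) (by omega)
    · intro j hj hne
      by_cases hxy : x j = y j
      · obtain ⟨i, hi, hb⟩ := h2' j ((le_max_right _ _).trans hj) (fun h => hne (hxy.trans h))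
        refine ⟨k + i, by omega, ?_⟩
        rw [col_mk]
        have : ¬ (k + i < k) := by omega
        simp only [f, this, if_false, Nat.add_sub_cancel_left]
        exact hb
      · obtain ⟨i, hi, hb⟩ := h2 j ((le_max_left _ _).trans hj) hxy
        refine ⟨i, by omega, ?_⟩
        rw [col_mk]
        simp only [f, hi, if_true]
        exact hb

/-! ### Antichains and covers -/

/-- `node a` is an initial segment of `node b`. -/
def le' (a b : ℕ) : Prop := (node b).take (node a).length = node a

instance (a b : ℕ) : Decidable (le' a b) := by unfold le'; infer_instance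

theorem le'_iff (a b : ℕ) : le' a b ↔ node a <+: node b := by
  unfold le'
  constructor
  · intro h
    exact List.prefix_iff_eq_take.mpr h.symm
  · intro h
    exact (List.prefix_iff_eq_take.mp h).symm

def inc (a b : ℕ) : Prop := ¬ le' a b ∧ ¬ le' b a

theorem inc_symm {a b : ℕ} (h : inc a b) : inc b a := ⟨h.2, h.1⟩

/-- antichain of size `k+1` in `A` -/
def AC (A : ℕ → Prop) (k : ℕ) : Prop :=
  ∃ w : ℕ → ℕ, ∀ i, i ≤ k → A (w i) ∧ ∀ i', i' ≤ k → i ≠ i' → inc (w i) (w i')

theorem le'_pfx {c : ℕ → ℕ} {a b : ℕ} (h : le' a b) (hb : node b = pfx c (node b).length) :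
    node a = pfx c (node a).length := by
  have h1 : (node a).length ≤ (node b).length := by
    rw [le'_iff] at h
    exact h.length_le
  unfold le' at h
  rw [hb, pfx_take c (by simpa using h1)] at h
  exact h.symm

theorem cover {A : ℕ → Prop} {k : ℕ} (hk : ¬ AC A k) :
    ∃ r : ℕ, ∃ c : ℕ → ℕ → ℕ, ∀ j, A j → ∃ i, i < r ∧ br (c i) j = true := by
  classical
  have hex : ∃ k, ¬ AC A k := ⟨k, hk⟩
  have hmin := fun m => Nat.find_min hex (m := m)
  have hspec := Nat.find_spec hex
  rcases hm : Nat.find hex with _ | m
  · -- `A` is empty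
    refine ⟨0, fun _ _ => 0, fun j hj => ?_⟩
    rw [hm] at hspec
    exfalso
    apply hspec
    refine ⟨fun _ => j, fun i hi => ⟨hj, fun i' hi' hne => ?_⟩⟩
    omega
  · rw [hm] at hspec
    have hAC : AC A m := not_not.mp (hmin m (by omega))
    obtain ⟨f, hf⟩ := hAC
    -- every element of `A` is comparable with some `f i`
    have hcomp : ∀ a, A a → ∃ i, i ≤ m ∧ (le' (f i) a ∨ le' a (f i)) := by
      intro a ha
      by_contra hcon
      push Not at hcon
      apply hspec
      refine ⟨fun i => if i ≤ m then f i else a, fun i hi => ⟨?_, fun i' hi' hne => ?_⟩⟩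
      · by_cases him : i ≤ m
        · simp only [him, if_true]; exact (hf i him).1
        · simp only [him, if_false]; exact ha
      · by_cases him : i ≤ m <;> by_cases him' : i' ≤ m
        · simp only [him, him', if_true]
          exact (hf i him).2 i' him' hne
        · simp only [him, him', if_true, if_false]
          exact hcon i him
        · simp only [him, him', if_true, if_false]
          exact inc_symm (hcon i' him')
        · omega
    -- the part above `f i` is a chain
    have hchain : ∀ i, i ≤ m → ∀ a b, A a → A b → le' (f i) a → le' (f i) b →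
        le' a b ∨ le' b a := by
      intro i him a b ha hb hfa hfb
      by_contra hcon
      push Not at hcon
      have hother : ∀ x, le' (f i) x → ∀ i', i' ≤ m → i' ≠ i → inc x (f i') := by
        intro x hx i' hi' hne
        have h1 := (hf i him).2 i' hi' (Ne.symm hne)
        constructor
        · intro h
          apply h1.1
          rw [le'_iff] at *
          exact hx.trans h
        · intro h
          rw [le'_iff] at hx h
          rcases List.prefix_or_prefix_of_prefix hx h with h2 | h2
          · exact h1.1 ((le'_iff _ _).mpr h2)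
          · exact h1.2 ((le'_iff _ _).mpr h2)
      apply hspec
      refine ⟨fun i' => if i' = i then a else if i' ≤ m then f i' else b,
        fun i1 hi1 => ⟨?_, fun i2 hi2 hne => ?_⟩⟩
      · by_cases h1 : i1 = i
        · simp only [h1, if_true]; exact ha
        · by_cases h2 : i1 ≤ m
          · simp only [h1, h2, if_true, if_false]; exact (hf i1 h2).1
          · simp only [h1, h2, if_false]; exact hb
      · by_cases h1 : i1 = i <;> by_cases h2 : i2 = i
        · omega
        · by_cases h3 : i2 ≤ m
          · simp only [h1, h2, h3, if_true, if_false]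
            exact hother a hfa i2 h3 h2
          · simp only [h1, h2, h3, if_true, if_false]
            exact hcon
        · by_cases h3 : i1 ≤ m
          · simp only [h1, h2, h3, if_true, if_false]
            exact inc_symm (hother a hfa i1 h3 h1)
          · simp only [h1, h2, h3, if_true, if_false]
            exact ⟨hcon.2, hcon.1⟩
        · by_cases h3 : i1 ≤ m <;> by_cases h4 : i2 ≤ m
          · simp only [h1, h2, h3, h4, if_true, if_false]
            exact (hf i1 h3).2 i2 h4 hne
          · simp only [h1, h2, h3, h4, if_true, if_false]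
            exact inc_symm (hother b hfb i1 h3 h1)
          · simp only [h1, h2, h3, h4, if_true, if_false]
            exact hother b hfb i2 h4 h2
          · omega
    -- the branches
    let c : ℕ → ℕ → ℕ := fun i n =>
      if hc : ∃ a, A a ∧ le' (f i) a ∧ n < (node a).length then (node hc.choose).getD n 0 else 0
    have hc : ∀ i, i ≤ m → ∀ a, A a → le' (f i) a → node a = pfx (c i) (node a).length := by
      intro i him a ha hfa
      apply List.ext_getElem
      · simp
      · intro n h1 h2
        have hex' : ∃ a, A a ∧ le' (f i) a ∧ n < (node a).length := ⟨a, ha, hfa, h1⟩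
        have hcn : c i n = (node hex'.choose).getD n 0 := dif_pos hex'
        obtain ⟨hb1, hb2, hb3⟩ := hex'.choose_spec
        have h3 : (pfx (c i) (node a).length)[n] = c i n := by simp [pfx]
        rw [h3, hcn]
        rcases hchain i him a _ ha hb1 hfa hb2 with h4 | h4
        · rw [le'_iff] at h4
          obtain ⟨t, ht⟩ := h4
          rw [← ht, List.getD_append _ _ _ _ h1]
          simp [h1]
        · rw [le'_iff] at h4
          obtain ⟨t, ht⟩ := h4
          have h5 : (node a).getD n 0 = (node hex'.choose).getD n 0 := by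
            rw [← ht, List.getD_append _ _ _ _ hb3]
          rw [← h5]
          simp [h1]
    refine ⟨m + 1, c, fun j hj => ?_⟩
    obtain ⟨i, him, h⟩ := hcomp j hj
    refine ⟨i, Nat.lt_succ_of_le him, ?_⟩
    rw [br_iff]
    rcases h with h | h
    · exact hc i him j hj h
    · have h1 : node (f i) = pfx (c i) (node (f i)).length := by
        refine hc i him (f i) (hf i him).1 ?_
        rw [le'_iff]
      exact le'_pfx h h1

theorem br_comparable {c : ℕ → ℕ} {a b : ℕ} (ha : br c a = true) (hb : br c b = true) :
    le' a b ∨ le' b a := by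
  rw [br_iff] at ha hb
  rcases le_total (node a).length (node b).length with h | h
  · left
    unfold le'
    rw [hb, pfx_take c h, ← ha]
  · right
    unfold le'
    rw [ha, pfx_take c h, ← hb]

/-- Combinatorial description of the complement of `G`. -/
theorem not_G_iff (x y : ℕ → ℕ) : ¬ G E x y ↔
    (∀ k n0 : ℕ, AC (fun j => n0 ≤ j ∧ x j ≠ y j) k) ∨
    (∃ c : ℕ → ℕ, ¬ DD E c ∧ ∀ m, ∃ j, m ≤ j ∧ x j ≠ y j ∧ br c j = true) := by
  classical
  constructor
  · intro hG
    by_contra hcon
    push Not at hcon
    obtain ⟨⟨k, n0, hk⟩, hc⟩ := hcon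
    obtain ⟨r, c, hcov⟩ := cover hk
    apply hG
    -- branches outside `DD` meet the difference set in a bounded set
    have hb : ∀ i, ∃ m, ¬ DD E (c i) → ∀ j, m ≤ j → x j ≠ y j → ¬ br (c i) j = true := by
      intro i
      by_cases hD : DD E (c i)
      · exact ⟨0, fun h => absurd hD h⟩
      · obtain ⟨m, hm⟩ := hc (c i) hD
        exact ⟨m, fun _ => hm⟩
    choose M hM using hb
    by_cases hr : ∃ c0, DD E c0
    · obtain ⟨c0, hc0⟩ := hr
      let f : ℕ → ℕ → ℕ := fun i => if DD E (c i) then c i else c0
      refine ⟨r, fun n => f n.unpair.1 n.unpair.2, max n0 ((Finset.range r).sup M), ?_, ?_⟩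
      · intro i _
        rw [col_mk]
        by_cases h : DD E (c i)
        · simp only [f, h, if_true]
        · simp only [f, h, if_false]; exact hc0
      · intro j hj hne
        obtain ⟨i, hi, hbr⟩ := hcov j ⟨(le_max_left _ _).trans hj, hne⟩
        have hDi : DD E (c i) := by
          by_contra hD
          refine hM i hD j ?_ hne hbr
          exact (Finset.le_sup (f := M) (Finset.mem_range.mpr hi)).trans
            ((le_max_right _ _).trans hj)
        refine ⟨i, hi, ?_⟩
        rw [col_mk]
        simp only [f, hDi, if_true]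
        exact hbr
    · push Not at hr
      refine ⟨0, fun _ => 0, max n0 ((Finset.range r).sup M), by simp, ?_⟩
      intro j hj hne
      obtain ⟨i, hi, hbr⟩ := hcov j ⟨(le_max_left _ _).trans hj, hne⟩
      exfalso
      refine hM i (hr _) j ?_ hne hbr
      exact (Finset.le_sup (f := M) (Finset.mem_range.mpr hi)).trans
        ((le_max_right _ _).trans hj)
  · rintro (h | ⟨c, hcD, hc⟩) ⟨k, w, n0, h1, h2⟩
    · obtain ⟨v, hv⟩ := h k n0
      -- pigeonhole
      have hcov : ∀ i : Fin (k + 1), ∃ i' : Fin k, br (col w i') (v i) = true := by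
        intro i
        obtain ⟨⟨hi1, hi2⟩, _⟩ := hv i (Nat.lt_succ_iff.mp i.2)
        obtain ⟨i', hi', hb⟩ := h2 (v i) hi1 hi2
        exact ⟨⟨i', hi'⟩, hb⟩
      choose g hg using hcov
      obtain ⟨a, b, hab, hgab⟩ := Fintype.exists_ne_map_eq_of_card_lt g (by simp)
      have hinc := (hv a (Nat.lt_succ_iff.mp a.2)).2 b (Nat.lt_succ_iff.mp b.2)
        (fun h => hab (Fin.ext h))
      have hb1 := hg a
      have hb2 := hg b
      rw [← hgab] at hb2
      rcases br_comparable hb1 hb2 with h3 | h3
      · exact hinc.1 h3
      · exact hinc.2 h3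
    · -- the branch `c` would coincide with one of the covering ones
      have hne : ∀ i, i < k → ∃ n, pfx c n ≠ pfx (col w i) n := by
        intro i hi
        by_contra hcon
        push Not at hcon
        have : c = col w i := pfx_inj hcon
        exact hcD (this ▸ h1 i hi)
      have hne' : ∀ i, ∃ n, i < k → pfx c n ≠ pfx (col w i) n := by
        intro i
        by_cases hi : i < k
        · obtain ⟨n, hn⟩ := hne i hi
          exact ⟨n, fun _ => hn⟩
        · exact ⟨0, fun h => absurd h hi⟩
      choose N hN using hne'
      -- a bound on the codes of short initial segments of `c`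
      let B := (Finset.range k).sup N
      let M := (Finset.range (B + 1)).sup (fun n => encode (pfx c n))
      obtain ⟨j, hj, hxy, hbr⟩ := hc (max n0 (M + 1))
      obtain ⟨i, hi, hbi⟩ := h2 j ((le_max_left _ _).trans hj) hxy
      rw [br_iff] at hbr hbi
      have hlen : B < (node j).length := by
        by_contra hle
        push Not at hle
        have h3 : encode (pfx c (node j).length) ≤ M :=
          Finset.le_sup (f := fun n => encode (pfx c n)) (Finset.mem_range.mpr (Nat.lt_succ_of_le hle))
        rw [← hbr] at h3
        have h4 : encode (node j) = j := Denumerable.encode_ofNat j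
        rw [h4] at h3
        have h5 := (le_max_right n0 (M + 1)).trans hj
        omega
      have hNB : N i ≤ (node j).length :=
        (Finset.le_sup (f := N) (Finset.mem_range.mpr hi)).trans hlen.le
      apply hN i hi
      rw [← pfx_take c hNB, ← pfx_take (col w i) hNB, ← hbr, ← hbi]

end Pool.Agent.Helper750.Diag
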