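import Pool.Agent.Helper750.Diag

set_option autoImplicit false

/-!
Definability of the diagonal equivalence relation.
-/

namespace Pool.Agent.Helper750.Diag

open Encodable Pool.Agent.Helper750.Eff Pool.Agent.Helper750.Basis
  Pool.Agent.Helper750.KL Pool.Agent.Helper750.Sig

variable {α : Type} [Rep α]

theorem D11_eq {δ : Type} [Primcodable δ] [DecidableEq δ] {F G : α → δ} (hF : CN F) (hG : CN G) :
    D11 (fun a => F a = G a) :=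
  (D11.dec (CN.prim2 (f := fun a b : δ => decide (a = b)) Primrec.eq.decide hF hG)).of_iff
    fun a => by simp

theorem D11_lt {F G : α → ℕ} (hF : CN F) (hG : CN G) : D11 (fun a => F a < G a) :=
  (D11.dec (CN.prim2 (f := fun a b : ℕ => decide (a < b)) Primrec.nat_lt.decide hF hG)).of_iff
    fun a => by simp

theorem D11_le {F G : α → ℕ} (hF : CN F) (hG : CN G) : D11 (fun a => F a ≤ G a) :=
  (D11.dec (CN.prim2 (f := fun a b : ℕ => decide (a ≤ b)) Primrec.nat_le.decide hF hG)).of_iff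
    fun a => by simp

theorem S11_imp {P Q : α → Prop} (hP : D11 P) (hQ : S11 Q) : S11 (fun a => P a → Q a) :=
  (hP.2.or hQ).of_iff fun _ => imp_iff_not_or

theorem CN_node {j : α → ℕ} (hj : CN j) : CN (fun a => node (j a)) :=
  CN.prim (Primrec.ofNat (List ℕ)) hj

theorem CN_br {c : α → ℕ → ℕ} {j : α → ℕ} (hc : GF c) (hj : CN j) :
    CN (fun a => br (c a) (j a)) :=
  CN.prim2 (f := fun s t : List ℕ => decide (s = t)) Primrec.eq.decide (CN_node hj)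
    (CN.pfx hc (CN.prim Primrec.list_length (CN_node hj)))

theorem flp_primrec : Primrec flp := by
  refine Primrec.ite (Primrec.eq.comp (Primrec.nat_mod.comp Primrec.id (Primrec.const 2))
    (Primrec.const 0)) Primrec.succ ?_
  exact Primrec.nat_sub.comp Primrec.id (Primrec.const 1)

theorem GF_tau {d x : α → ℕ → ℕ} (hd : GF d) (hx : GF x) : GF (fun a => tau (d a) (x a)) := by
  have h : CN (fun p : α × ℕ => if br (join (d p.1) (x p.1)) p.2 = true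
      then flp (x p.1 p.2) else x p.1 p.2) :=
    CN.ite (CN_br (GF.join (hd.comp GF.fst) (hx.comp GF.fst)) (CN.nat GF.snd))
      (CN.prim flp_primrec (CN.app (hx.comp GF.fst) (CN.nat GF.snd)))
      (CN.app (hx.comp GF.fst) (CN.nat GF.snd))
  exact GF.curry h

theorem CN_q {d x : α → ℕ → ℕ} {l n : α → ℕ} (hd : GF d) (hx : GF x) (hl : CN l) (hn : CN n) :
    CN (fun a => d a (Nat.pair (encode (pfx (x a) (l a))) (n a))) :=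
  CN.app hd (CN.prim2 Primrec₂.natPair (CN.prim Primrec.encode (CN.pfx hx hl)) hn)

theorem S11_Ev {d x y : α → ℕ → ℕ} (hd : GF d) (hx : GF x) (hy : GF y) :
    S11 (fun a => Ev (d a) (x a) (y a)) := by
  refine S11.allN (P := fun b : α × ℕ => ∃ l,
    d b.1 (Nat.pair (encode (pfx (x b.1) l)) b.2) = y b.1 b.2 + 1 ∧
    ∀ l', l' < l → d b.1 (Nat.pair (encode (pfx (x b.1) l')) b.2) = 0) ?_
  refine S11.exN (P := fun c : (α × ℕ) × ℕ =>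
    d c.1.1 (Nat.pair (encode (pfx (x c.1.1) c.2)) c.1.2) = y c.1.1 c.1.2 + 1 ∧
    ∀ l', l' < c.2 → d c.1.1 (Nat.pair (encode (pfx (x c.1.1) l')) c.1.2) = 0) ?_
  refine S11.and (D11_eq ?_ ?_).1 ?_
  · exact CN_q (hd.comp (GF.fst.comp GF.fst)) (hx.comp (GF.fst.comp GF.fst)) (CN.nat GF.snd)
      (CN.nat (GF.snd.comp GF.fst))
  · exact CN.prim (f := fun n : ℕ => n + 1) Primrec.succ
      (CN.app (hy.comp (GF.fst.comp GF.fst)) (CN.nat (GF.snd.comp GF.fst)))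
  · refine S11.allN (P := fun e : ((α × ℕ) × ℕ) × ℕ => e.2 < e.1.2 →
      d e.1.1.1 (Nat.pair (encode (pfx (x e.1.1.1) e.2)) e.1.1.2) = 0) ?_
    refine S11_imp (D11_lt (CN.nat GF.snd) (CN.nat (GF.snd.comp GF.fst))) (D11_eq ?_ (CN.const 0)).1
    exact CN_q (hd.comp (GF.fst.comp (GF.fst.comp GF.fst)))
      (hx.comp (GF.fst.comp (GF.fst.comp GF.fst))) (CN.nat GF.snd)
      (CN.nat (GF.snd.comp (GF.fst.comp GF.fst)))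

theorem S11_not_Dom {d x : α → ℕ → ℕ} (hd : GF d) (hx : GF x) :
    S11 (fun a => ¬ Dom (d a) (x a)) := by
  have h : S11 (fun a => ∃ n, ∀ l, d a (Nat.pair (encode (pfx (x a) l)) n) = 0) := by
    refine S11.exN (P := fun b : α × ℕ =>
      ∀ l, d b.1 (Nat.pair (encode (pfx (x b.1) l)) b.2) = 0) ?_
    refine S11.allN (P := fun c : (α × ℕ) × ℕ =>
      d c.1.1 (Nat.pair (encode (pfx (x c.1.1) c.2)) c.1.2) = 0) ?_
    exact (D11_eq (CN_q (hd.comp (GF.fst.comp GF.fst)) (hx.comp (GF.fst.comp GF.fst))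
      (CN.nat GF.snd) (CN.nat (GF.snd.comp GF.fst))) (CN.const 0)).1
  refine h.of_iff fun a => ?_
  unfold Dom
  push Not
  rfl

variable {E : (ℕ → ℕ) → (ℕ → ℕ) → Prop}

theorem DD_D11 (hE : D11 (fun p : (ℕ → ℕ) × (ℕ → ℕ) => E p.1 p.2)) :
    D11 (fun c : ℕ → ℕ => DD E c) := by
  have hc : GF (fun q : ((ℕ → ℕ) × (ℕ → ℕ)) × (ℕ → ℕ) => q.1.1) := GF.fst.comp GF.fst
  have hy : GF (fun q : ((ℕ → ℕ) × (ℕ → ℕ)) × (ℕ → ℕ) => q.1.2) := GF.snd.comp GF.fst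
  have hy' : GF (fun q : ((ℕ → ℕ) × (ℕ → ℕ)) × (ℕ → ℕ) => q.2) := GF.snd
  have hE' : D11 (fun q : ((ℕ → ℕ) × (ℕ → ℕ)) × (ℕ → ℕ) => E q.1.2 q.2) :=
    hE.comp (F := fun q : ((ℕ → ℕ) × (ℕ → ℕ)) × (ℕ → ℕ) => (q.1.2, q.2)) (GF.pair hy hy')
  have e1 : S11 (fun q : ((ℕ → ℕ) × (ℕ → ℕ)) × (ℕ → ℕ) => Ev (evn q.1.1) (odd q.1.1) q.1.2) :=
    S11_Ev (GF.evn hc) (GF.odd hc) hy
  have e2 : S11 (fun q : ((ℕ → ℕ) × (ℕ → ℕ)) × (ℕ → ℕ) =>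
      Ev (evn q.1.1) (tau (evn q.1.1) (odd q.1.1)) q.2) :=
    S11_Ev (GF.evn hc) (GF_tau (GF.evn hc) (GF.odd hc)) hy'
  constructor
  · exact S11.exR (S11.exR (e1.and (e2.and hE'.2)))
  · have h1 : S11 (fun c : ℕ → ℕ => ∃ y y' : ℕ → ℕ, Ev (evn c) (odd c) y ∧
        Ev (evn c) (tau (evn c) (odd c)) y' ∧ E y y') := S11.exR (S11.exR (e1.and (e2.and hE'.1)))
    have h2 : S11 (fun c : ℕ → ℕ => ¬ Dom (evn c) (odd c)) :=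
      S11_not_Dom (GF.evn GF.id) (GF.odd GF.id)
    have h3 : S11 (fun c : ℕ → ℕ => ¬ Dom (evn c) (tau (evn c) (odd c))) :=
      S11_not_Dom (GF.evn GF.id) (GF_tau (GF.evn GF.id) (GF.odd GF.id))
    refine (h1.or (h2.or h3)).of_iff fun c => ?_
    constructor
    · intro h
      by_cases d1 : Dom (evn c) (odd c)
      · by_cases d2 : Dom (evn c) (tau (evn c) (odd c))
        · obtain ⟨y, hy⟩ := d1.ev
          obtain ⟨y', hy'⟩ := d2.ev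
          left
          refine ⟨y, y', hy, hy', ?_⟩
          by_contra hn
          exact h ⟨y, y', hy, hy', hn⟩
        · exact Or.inr (Or.inr d2)
      · exact Or.inr (Or.inl d1)
    · rintro (⟨y, y', hy, hy', hE1⟩ | h | h) ⟨z, z', hz, hz', hE2⟩
      · have e1 := hy.unique hz
        have e2 := hy'.unique hz'
        subst e1 e2
        exact hE2 hE1
      · exact h hz.dom
      · exact h hz'.dom

theorem G_D11 (hE : D11 (fun p : (ℕ → ℕ) × (ℕ → ℕ) => E p.1 p.2)) :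
    D11 (fun p : (ℕ → ℕ) × (ℕ → ℕ) => G E p.1 p.2) := by
  have hDD := DD_D11 hE
  constructor
  · refine S11.exN (P := fun p : ((ℕ → ℕ) × (ℕ → ℕ)) × ℕ => ∃ w : ℕ → ℕ, ∃ n0 : ℕ,
      (∀ i, i < p.2 → DD E (col w i)) ∧
      ∀ j, n0 ≤ j → p.1.1 j ≠ p.1.2 j → ∃ i, i < p.2 ∧ br (col w i) j = true) ?_
    refine S11.exR (P := fun p : (((ℕ → ℕ) × (ℕ → ℕ)) × ℕ) × (ℕ → ℕ) => ∃ n0 : ℕ,
      (∀ i, i < p.1.2 → DD E (col p.2 i)) ∧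
      ∀ j, n0 ≤ j → p.1.1.1 j ≠ p.1.1.2 j → ∃ i, i < p.1.2 ∧ br (col p.2 i) j = true) ?_
    refine S11.exN (P := fun p : ((((ℕ → ℕ) × (ℕ → ℕ)) × ℕ) × (ℕ → ℕ)) × ℕ =>
      (∀ i, i < p.1.1.2 → DD E (col p.1.2 i)) ∧
      ∀ j, p.2 ≤ j → p.1.1.1.1 j ≠ p.1.1.1.2 j → ∃ i, i < p.1.1.2 ∧ br (col p.1.2 i) j = true) ?_
    refine S11.and ?_ ?_
    · refine S11.allN (P := fun p : (((((ℕ → ℕ) × (ℕ → ℕ)) × ℕ) × (ℕ → ℕ)) × ℕ) × ℕ =>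
        p.2 < p.1.1.1.2 → DD E (col p.1.1.2 p.2)) ?_
      refine S11_imp (D11_lt (CN.nat GF.snd) (CN.nat (GF.snd.comp (GF.fst.comp
        (GF.fst.comp GF.fst))))) (hDD.1.comp ?_)
      exact GF.col (GF.snd.comp (GF.fst.comp GF.fst)) (CN.nat GF.snd)
    · refine S11.allN (P := fun p : (((((ℕ → ℕ) × (ℕ → ℕ)) × ℕ) × (ℕ → ℕ)) × ℕ) × ℕ =>
        p.1.2 ≤ p.2 → p.1.1.1.1.1 p.2 ≠ p.1.1.1.1.2 p.2 →
          ∃ i, i < p.1.1.1.2 ∧ br (col p.1.1.2 i) p.2 = true) ?_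
      have g : GF (fun p : (((((ℕ → ℕ) × (ℕ → ℕ)) × ℕ) × (ℕ → ℕ)) × ℕ) × ℕ => p.1.1.1.1) :=
        GF.fst.comp (GF.fst.comp (GF.fst.comp GF.fst))
      refine S11_imp (D11_le (CN.nat (GF.snd.comp GF.fst)) (CN.nat GF.snd)) ?_
      refine S11_imp (D11_eq (CN.app (GF.fst.comp g) (CN.nat GF.snd))
        (CN.app (GF.snd.comp g) (CN.nat GF.snd))).not ?_
      refine S11.exN (P := fun p : ((((((ℕ → ℕ) × (ℕ → ℕ)) × ℕ) × (ℕ → ℕ)) × ℕ) × ℕ) × ℕ =>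
        p.2 < p.1.1.1.1.2 ∧ br (col p.1.1.1.2 p.2) p.1.2 = true) ?_
      refine S11.and (D11_lt (CN.nat GF.snd) (CN.nat (GF.snd.comp (GF.fst.comp (GF.fst.comp
        (GF.fst.comp GF.fst)))))).1 (S11.dec (CN_br ?_ ?_))
      · exact GF.col (GF.snd.comp (GF.fst.comp (GF.fst.comp GF.fst))) (CN.nat GF.snd)
      · exact CN.nat (GF.snd.comp GF.fst)
  · have hA : S11 (fun p : (ℕ → ℕ) × (ℕ → ℕ) =>
        ∀ k n0 : ℕ, AC (fun j => n0 ≤ j ∧ p.1 j ≠ p.2 j) k) := by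
      refine S11.allN (P := fun p : ((ℕ → ℕ) × (ℕ → ℕ)) × ℕ =>
        ∀ n0 : ℕ, AC (fun j => n0 ≤ j ∧ p.1.1 j ≠ p.1.2 j) p.2) ?_
      refine S11.allN (P := fun p : (((ℕ → ℕ) × (ℕ → ℕ)) × ℕ) × ℕ =>
        AC (fun j => p.2 ≤ j ∧ p.1.1.1 j ≠ p.1.1.2 j) p.1.2) ?_
      refine S11.exR (P := fun p : ((((ℕ → ℕ) × (ℕ → ℕ)) × ℕ) × ℕ) × (ℕ → ℕ) =>
        ∀ i, i ≤ p.1.1.2 → (p.1.2 ≤ p.2 i ∧ p.1.1.1.1 (p.2 i) ≠ p.1.1.1.2 (p.2 i)) ∧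
          ∀ i', i' ≤ p.1.1.2 → i ≠ i' → inc (p.2 i) (p.2 i')) ?_
      refine S11.allN (P := fun p : (((((ℕ → ℕ) × (ℕ → ℕ)) × ℕ) × ℕ) × (ℕ → ℕ)) × ℕ =>
        p.2 ≤ p.1.1.1.2 → (p.1.1.2 ≤ p.1.2 p.2 ∧
          p.1.1.1.1.1 (p.1.2 p.2) ≠ p.1.1.1.1.2 (p.1.2 p.2)) ∧
          ∀ i', i' ≤ p.1.1.1.2 → p.2 ≠ i' → inc (p.1.2 p.2) (p.1.2 i')) ?_
      have gx : GF (fun p : (((((ℕ → ℕ) × (ℕ → ℕ)) × ℕ) × ℕ) × (ℕ → ℕ)) × ℕ => p.1.1.1.1.1) :=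
        GF.fst.comp (GF.fst.comp (GF.fst.comp (GF.fst.comp GF.fst)))
      have gy : GF (fun p : (((((ℕ → ℕ) × (ℕ → ℕ)) × ℕ) × ℕ) × (ℕ → ℕ)) × ℕ => p.1.1.1.1.2) :=
        GF.snd.comp (GF.fst.comp (GF.fst.comp (GF.fst.comp GF.fst)))
      have gk : CN (fun p : (((((ℕ → ℕ) × (ℕ → ℕ)) × ℕ) × ℕ) × (ℕ → ℕ)) × ℕ => p.1.1.1.2) :=
        CN.nat (GF.snd.comp (GF.fst.comp (GF.fst.comp GF.fst)))
      have gn : CN (fun p : (((((ℕ → ℕ) × (ℕ → ℕ)) × ℕ) × ℕ) × (ℕ → ℕ)) × ℕ => p.1.1.2) :=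
        CN.nat (GF.snd.comp (GF.fst.comp GF.fst))
      have gw : GF (fun p : (((((ℕ → ℕ) × (ℕ → ℕ)) × ℕ) × ℕ) × (ℕ → ℕ)) × ℕ => p.1.2) :=
        GF.snd.comp GF.fst
      have gi : CN (fun p : (((((ℕ → ℕ) × (ℕ → ℕ)) × ℕ) × ℕ) × (ℕ → ℕ)) × ℕ => p.2) :=
        CN.nat GF.snd
      have gwi := CN.app gw gi
      refine S11_imp (D11_le gi gk) (S11.and (S11.and (D11_le gn gwi).1
        (D11_eq (CN.app gx gwi) (CN.app gy gwi)).2) ?_)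
      refine S11.allN (P := fun p : ((((((ℕ → ℕ) × (ℕ → ℕ)) × ℕ) × ℕ) × (ℕ → ℕ)) × ℕ) × ℕ =>
        p.2 ≤ p.1.1.1.1.2 → p.1.2 ≠ p.2 → inc (p.1.1.2 p.1.2) (p.1.1.2 p.2)) ?_
      have gi' : CN (fun p : ((((((ℕ → ℕ) × (ℕ → ℕ)) × ℕ) × ℕ) × (ℕ → ℕ)) × ℕ) × ℕ => p.2) :=
        CN.nat GF.snd
      refine S11_imp (D11_le gi' (gk.comp GF.fst)) (S11_imp (D11_eq (gi.comp GF.fst) gi').not ?_)
      have gn1 := CN_node (gwi.comp (G := fun p : ((((((ℕ → ℕ) × (ℕ → ℕ)) × ℕ) × ℕ) ×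
        (ℕ → ℕ)) × ℕ) × ℕ => p.1) GF.fst)
      have gn2 := CN_node (CN.app (gw.comp (G := fun p : ((((((ℕ → ℕ) × (ℕ → ℕ)) × ℕ) × ℕ) ×
        (ℕ → ℕ)) × ℕ) × ℕ => p.1) GF.fst) gi')
      refine S11.and ?_ ?_
      · exact (D11_eq (CN.prim2 Primrec.list_take (CN.prim Primrec.list_length gn1) gn2) gn1).2
      · exact (D11_eq (CN.prim2 Primrec.list_take (CN.prim Primrec.list_length gn2) gn1) gn2).2
    have hB : S11 (fun p : (ℕ → ℕ) × (ℕ → ℕ) =>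
        ∃ c : ℕ → ℕ, ¬ DD E c ∧ ∀ m, ∃ j, m ≤ j ∧ p.1 j ≠ p.2 j ∧ br c j = true) := by
      refine S11.exR (P := fun p : ((ℕ → ℕ) × (ℕ → ℕ)) × (ℕ → ℕ) =>
        ¬ DD E p.2 ∧ ∀ m, ∃ j, m ≤ j ∧ p.1.1 j ≠ p.1.2 j ∧ br p.2 j = true) ?_
      refine S11.and (hDD.2.comp GF.snd) ?_
      refine S11.allN (P := fun p : (((ℕ → ℕ) × (ℕ → ℕ)) × (ℕ → ℕ)) × ℕ =>
        ∃ j, p.2 ≤ j ∧ p.1.1.1 j ≠ p.1.1.2 j ∧ br p.1.2 j = true) ?_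
      refine S11.exN (P := fun p : ((((ℕ → ℕ) × (ℕ → ℕ)) × (ℕ → ℕ)) × ℕ) × ℕ =>
        p.1.2 ≤ p.2 ∧ p.1.1.1.1 p.2 ≠ p.1.1.1.2 p.2 ∧ br p.1.1.2 p.2 = true) ?_
      have g : GF (fun p : ((((ℕ → ℕ) × (ℕ → ℕ)) × (ℕ → ℕ)) × ℕ) × ℕ => p.1.1.1) :=
        GF.fst.comp (GF.fst.comp GF.fst)
      refine S11.and (D11_le (CN.nat (GF.snd.comp GF.fst)) (CN.nat GF.snd)).1 (S11.and
        (D11_eq (CN.app (GF.fst.comp g) (CN.nat GF.snd)) (CN.app (GF.snd.comp g)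
        (CN.nat GF.snd))).2 (S11.dec (CN_br (GF.snd.comp (GF.fst.comp GF.fst)) (CN.nat GF.snd))))
    exact (hA.or hB).of_iff fun p => not_G_iff E p.1 p.2

end Pool.Agent.Helper750.Diag
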