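import Mathlib

set_option autoImplicit false

/-!
A small calculus of lightface Sigma-1-1 predicates on contexts built from natural numbers and
elements of Baire space.
-/

namespace Pool.Agent.Helper750.Eff

open Encodable

/-- The first `n` values of `x`. -/
def pfx (x : ℕ → ℕ) (n : ℕ) : List ℕ := (List.range n).map x

@[simp] theorem pfx_length (x : ℕ → ℕ) (n : ℕ) : (pfx x n).length = n := by simp [pfx]

theorem pfx_take (x : ℕ → ℕ) {n m : ℕ} (h : n ≤ m) : (pfx x m).take n = pfx x n := by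
  simp [pfx, ← List.map_take, List.take_range, Nat.min_eq_left h]

theorem pfx_getElem? (x : ℕ → ℕ) (m k : ℕ) : (pfx x m)[k]? = if k < m then some (x k) else none := by
  by_cases h : k < m
  · simp [pfx, h]
  · simp [pfx, h]

theorem pfx_succ (x : ℕ → ℕ) (n : ℕ) : pfx x (n + 1) = pfx x n ++ [x n] := by
  simp [pfx, List.range_succ]

theorem pfx_getD (x : ℕ → ℕ) {m k : ℕ} (h : k < m) (d : ℕ) : (pfx x m).getD k d = x k := by
  rw [List.getD_eq_getElem?_getD, pfx_getElem?, if_pos h]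
  rfl

theorem pfx_inj {x y : ℕ → ℕ} (h : ∀ n, pfx x n = pfx y n) : x = y := by
  funext n
  have := h (n + 1)
  rw [pfx_succ, pfx_succ, h n] at this
  simpa using this

/-- Contexts with finite approximations. -/
class Rep (α : Type) where
  D : Type
  prim : Primcodable D
  ap : α → ℕ → D
  tr : D → ℕ → D
  tr_prim : Primrec₂ tr
  tr_ap : ∀ a m n, n ≤ m → tr (ap a m) n = ap a n

attribute [instance_reducible, instance] Rep.prim

instance : Rep ℕ where
  D := ℕ
  prim := inferInstance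
  ap k _ := k
  tr k _ := k
  tr_prim := Primrec₂.left
  tr_ap _ _ _ _ := rfl

instance : Rep (ℕ → ℕ) where
  D := List ℕ
  prim := inferInstance
  ap := pfx
  tr l n := l.take n
  tr_prim := Primrec.list_take.swap
  tr_ap x _ _ h := pfx_take x h

instance instRepProd {α β : Type} [Rep α] [Rep β] : Rep (α × β) where
  D := Rep.D α × Rep.D β
  prim := inferInstance
  ap p n := (Rep.ap p.1 n, Rep.ap p.2 n)
  tr d n := (Rep.tr d.1 n, Rep.tr d.2 n)
  tr_prim := Primrec.pair
    (Rep.tr_prim.comp (Primrec.fst.comp Primrec.fst) Primrec.snd)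
    (Rep.tr_prim.comp (Primrec.snd.comp Primrec.fst) Primrec.snd)
  tr_ap p m n h := by rw [Rep.tr_ap _ _ _ h, Rep.tr_ap _ _ _ h]

theorem ap_nat (k n : ℕ) : Rep.ap k n = k := rfl
theorem ap_real (x : ℕ → ℕ) (n : ℕ) : Rep.ap x n = pfx x n := rfl
theorem ap_prod {α β : Type} [Rep α] [Rep β] (a : α) (b : β) (n : ℕ) :
    Rep.ap (a, b) n = (Rep.ap a n, Rep.ap b n) := rfl

variable {α β γ : Type} [Rep α] [Rep β] [Rep γ]
variable {δ ε : Type} [Primcodable δ] [Primcodable ε]

/-- Computable maps from a context into a discrete type. -/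
def CN (F : α → δ) : Prop :=
  ∃ φ : Rep.D α × ℕ → Option δ, Primrec φ ∧
    (∀ a m d, φ (Rep.ap a m, m) = some d → d = F a) ∧ ∀ a, ∃ m, φ (Rep.ap a m, m) = some (F a)

/-- Computable maps between contexts. -/
def GF (F : α → β) : Prop :=
  ∃ φ : (Rep.D α × ℕ) × ℕ → Option (Rep.D β), Primrec φ ∧
    (∀ a m n d, φ ((Rep.ap a m, m), n) = some d → d = Rep.ap (F a) n) ∧
    ∀ a n, ∃ m, φ ((Rep.ap a m, m), n) = some (Rep.ap (F a) n)

theorem tr_prim' {σ : Type} [Primcodable σ] {f : σ → Rep.D α} {g : σ → ℕ} (hf : Primrec f)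
    (hg : Primrec g) : Primrec fun s => Rep.tr (f s) (g s) := Rep.tr_prim.comp hf hg

theorem CN.prim {F : α → δ} {f : δ → ε} (hf : Primrec f) (hF : CN F) : CN (fun a => f (F a)) := by
  obtain ⟨φ, hφ, h1, h2⟩ := hF
  refine ⟨fun p => (φ p).map f, Primrec.option_map hφ (hf.comp Primrec.snd).to₂, ?_, ?_⟩
  · intro a m d h
    rw [Option.map_eq_some_iff] at h
    obtain ⟨e, he, rfl⟩ := h
    rw [h1 a m e he]
  · intro a
    obtain ⟨m, hm⟩ := h2 a
    exact ⟨m, by beta_reduce; rw [hm]; rfl⟩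

theorem CN.const (d : δ) : CN (fun _ : α => d) :=
  ⟨fun _ => some d, Primrec.const _, fun _ _ _ h => (Option.some.inj h).symm, fun _ => ⟨0, rfl⟩⟩

theorem CN.pair {F : α → δ} {G : α → ε} (hF : CN F) (hG : CN G) : CN (fun a => (F a, G a)) := by
  obtain ⟨φ, hφ, h1, h2⟩ := hF
  obtain ⟨ψ, hψ, h3, h4⟩ := hG
  refine ⟨fun p => (φ (Rep.tr p.1 p.2.unpair.1, p.2.unpair.1)).bind fun d =>
    (ψ (Rep.tr p.1 p.2.unpair.2, p.2.unpair.2)).map fun e => (d, e), ?_, ?_, ?_⟩
  · have hu1 : Primrec fun p : Rep.D α × ℕ => p.2.unpair.1 :=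
      Primrec.fst.comp (Primrec.unpair.comp Primrec.snd)
    have hu2 : Primrec fun p : Rep.D α × ℕ => p.2.unpair.2 :=
      Primrec.snd.comp (Primrec.unpair.comp Primrec.snd)
    refine Primrec.option_bind (hφ.comp (Primrec.pair (tr_prim' Primrec.fst hu1) hu1)) ?_
    refine Primrec.option_map ((hψ.comp (Primrec.pair (tr_prim' Primrec.fst hu2) hu2)).comp
      Primrec.fst) ?_
    exact (Primrec.pair (Primrec.snd.comp Primrec.fst) Primrec.snd).to₂
  · intro a m d h
    simp only [Option.bind_eq_some_iff, Option.map_eq_some_iff] at h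
    obtain ⟨d1, hd1, e, he, rfl⟩ := h
    rw [Rep.tr_ap _ _ _ (Nat.unpair_left_le m)] at hd1
    rw [Rep.tr_ap _ _ _ (Nat.unpair_right_le m)] at he
    rw [h1 _ _ _ hd1, h3 _ _ _ he]
  · intro a
    obtain ⟨m, hm⟩ := h2 a
    obtain ⟨n, hn⟩ := h4 a
    refine ⟨Nat.pair m n, ?_⟩
    have e1 : (Nat.pair m n).unpair.1 = m := by simp
    have e2 : (Nat.pair m n).unpair.2 = n := by simp
    have l1 : m ≤ Nat.pair m n := Nat.left_le_pair m n
    have l2 : n ≤ Nat.pair m n := Nat.right_le_pair m n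
    simp only [e1, e2, Rep.tr_ap _ _ _ l1, Rep.tr_ap _ _ _ l2, hm, hn]
    rfl

theorem CN.prim2 {σ : Type} [Primcodable σ] {F : α → δ} {G : α → ε} {f : δ → ε → σ}
    (hf : Primrec₂ f) (hF : CN F) (hG : CN G) : CN (fun a => f (F a) (G a)) :=
  CN.prim (f := fun p : δ × ε => f p.1 p.2) hf (CN.pair hF hG)

theorem CN.comp {F : β → δ} {G : α → β} (hF : CN F) (hG : GF G) : CN (fun a => F (G a)) := by
  obtain ⟨φ, hφ, h1, h2⟩ := hF
  obtain ⟨ψ, hψ, h3, h4⟩ := hG
  refine ⟨fun p => (ψ ((Rep.tr p.1 p.2.unpair.1, p.2.unpair.1), p.2.unpair.2)).bind fun d =>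
    φ (d, p.2.unpair.2), ?_, ?_, ?_⟩
  · have hu1 : Primrec fun p : Rep.D α × ℕ => p.2.unpair.1 :=
      Primrec.fst.comp (Primrec.unpair.comp Primrec.snd)
    have hu2 : Primrec fun p : Rep.D α × ℕ => p.2.unpair.2 :=
      Primrec.snd.comp (Primrec.unpair.comp Primrec.snd)
    refine Primrec.option_bind
      (hψ.comp (Primrec.pair (Primrec.pair (tr_prim' Primrec.fst hu1) hu1) hu2)) ?_
    exact (hφ.comp (Primrec.pair Primrec.snd (hu2.comp Primrec.fst))).to₂
  · intro a m d h
    rw [Option.bind_eq_some_iff] at h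
    obtain ⟨e, he, hd⟩ := h
    rw [Rep.tr_ap _ _ _ (Nat.unpair_left_le m)] at he
    rw [h3 _ _ _ _ he] at hd
    exact h1 _ _ _ hd
  · intro a
    obtain ⟨n, hn⟩ := h2 (G a)
    obtain ⟨m, hm⟩ := h4 a n
    refine ⟨Nat.pair m n, ?_⟩
    have e1 : (Nat.pair m n).unpair.1 = m := by simp
    have e2 : (Nat.pair m n).unpair.2 = n := by simp
    have l1 : m ≤ Nat.pair m n := Nat.left_le_pair m n
    simp only [e1, e2, Rep.tr_ap _ _ _ l1, hm, Option.bind_some, hn]

theorem GF.comp {F : β → γ} {G : α → β} (hF : GF F) (hG : GF G) : GF (fun a => F (G a)) := by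
  obtain ⟨φ, hφ, h1, h2⟩ := hF
  obtain ⟨ψ, hψ, h3, h4⟩ := hG
  refine ⟨fun p => (ψ ((Rep.tr p.1.1 p.1.2.unpair.1, p.1.2.unpair.1), p.1.2.unpair.2)).bind fun d =>
    φ ((d, p.1.2.unpair.2), p.2), ?_, ?_, ?_⟩
  · have hu1 : Primrec fun p : (Rep.D α × ℕ) × ℕ => p.1.2.unpair.1 :=
      Primrec.fst.comp (Primrec.unpair.comp (Primrec.snd.comp Primrec.fst))
    have hu2 : Primrec fun p : (Rep.D α × ℕ) × ℕ => p.1.2.unpair.2 :=
      Primrec.snd.comp (Primrec.unpair.comp (Primrec.snd.comp Primrec.fst))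
    refine Primrec.option_bind
      (hψ.comp (Primrec.pair (Primrec.pair
        (tr_prim' (Primrec.fst.comp Primrec.fst) hu1) hu1) hu2)) ?_
    exact (hφ.comp (Primrec.pair (Primrec.pair Primrec.snd (hu2.comp Primrec.fst))
      (Primrec.snd.comp Primrec.fst))).to₂
  · intro a m n d h
    rw [Option.bind_eq_some_iff] at h
    obtain ⟨e, he, hd⟩ := h
    simp only at he hd
    rw [Rep.tr_ap _ _ _ (Nat.unpair_left_le m)] at he
    rw [h3 _ _ _ _ he] at hd
    exact h1 _ _ _ _ hd
  · intro a n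
    obtain ⟨j, hj⟩ := h2 (G a) n
    obtain ⟨m, hm⟩ := h4 a j
    refine ⟨Nat.pair m j, ?_⟩
    have e1 : (Nat.pair m j).unpair.1 = m := by simp
    have e2 : (Nat.pair m j).unpair.2 = j := by simp
    have l1 : m ≤ Nat.pair m j := Nat.left_le_pair m j
    simp only [e1, e2, Rep.tr_ap _ _ _ l1, hm, Option.bind_some, hj]

theorem GF.pair {F : α → β} {G : α → γ} (hF : GF F) (hG : GF G) : GF (fun a => (F a, G a)) := by
  obtain ⟨φ, hφ, h1, h2⟩ := hF
  obtain ⟨ψ, hψ, h3, h4⟩ := hG
  refine ⟨fun p => (φ ((Rep.tr p.1.1 p.1.2.unpair.1, p.1.2.unpair.1), p.2)).bind fun d =>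
    (ψ ((Rep.tr p.1.1 p.1.2.unpair.2, p.1.2.unpair.2), p.2)).map fun e => (d, e), ?_, ?_, ?_⟩
  · have hu1 : Primrec fun p : (Rep.D α × ℕ) × ℕ => p.1.2.unpair.1 :=
      Primrec.fst.comp (Primrec.unpair.comp (Primrec.snd.comp Primrec.fst))
    have hu2 : Primrec fun p : (Rep.D α × ℕ) × ℕ => p.1.2.unpair.2 :=
      Primrec.snd.comp (Primrec.unpair.comp (Primrec.snd.comp Primrec.fst))
    refine Primrec.option_bind (hφ.comp (Primrec.pair (Primrec.pair
        (tr_prim' (Primrec.fst.comp Primrec.fst) hu1) hu1) Primrec.snd)) ?_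
    refine Primrec.option_map ((hψ.comp (Primrec.pair (Primrec.pair
        (tr_prim' (Primrec.fst.comp Primrec.fst) hu2) hu2) Primrec.snd)).comp
      Primrec.fst) ?_
    exact (Primrec.pair (Primrec.snd.comp Primrec.fst) Primrec.snd).to₂
  · intro a m n d h
    simp only [Option.bind_eq_some_iff, Option.map_eq_some_iff] at h
    obtain ⟨d1, hd1, e, he, rfl⟩ := h
    rw [Rep.tr_ap _ _ _ (Nat.unpair_left_le m)] at hd1
    rw [Rep.tr_ap _ _ _ (Nat.unpair_right_le m)] at he
    rw [h1 _ _ _ _ hd1, h3 _ _ _ _ he]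
    rfl
  · intro a n
    obtain ⟨m, hm⟩ := h2 a n
    obtain ⟨j, hj⟩ := h4 a n
    refine ⟨Nat.pair m j, ?_⟩
    have e1 : (Nat.pair m j).unpair.1 = m := by simp
    have e2 : (Nat.pair m j).unpair.2 = j := by simp
    have l1 : m ≤ Nat.pair m j := Nat.left_le_pair m j
    have l2 : j ≤ Nat.pair m j := Nat.right_le_pair m j
    simp only [e1, e2, Rep.tr_ap _ _ _ l1, Rep.tr_ap _ _ _ l2, hm, hj]
    rfl

theorem GF.id : GF (fun a : α => a) := by
  refine ⟨fun p => if p.2 ≤ p.1.2 then some (Rep.tr p.1.1 p.2) else none, ?_, ?_, ?_⟩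
  · exact Primrec.ite (Primrec.nat_le.comp Primrec.snd (Primrec.snd.comp Primrec.fst))
      (Primrec.option_some.comp (tr_prim' (Primrec.fst.comp Primrec.fst) Primrec.snd))
      (Primrec.const none)
  · intro a m n d h
    simp only at h
    split_ifs at h with h1
    rw [Rep.tr_ap _ _ _ h1] at h
    exact (Option.some.inj h).symm
  · intro a n
    refine ⟨n, ?_⟩
    simp only [le_refl, if_true]
    rw [Rep.tr_ap _ _ _ le_rfl]

theorem GF.fst : GF (fun p : α × β => p.1) := by
  refine ⟨fun p => if p.2 ≤ p.1.2 then some (Rep.tr p.1.1.1 p.2) else none, ?_, ?_, ?_⟩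
  · exact Primrec.ite (Primrec.nat_le.comp Primrec.snd (Primrec.snd.comp Primrec.fst))
      (Primrec.option_some.comp (tr_prim' (Primrec.fst.comp (Primrec.fst.comp Primrec.fst))
        Primrec.snd)) (Primrec.const none)
  · rintro ⟨a, b⟩ m n d h
    simp only [ap_prod] at h
    split_ifs at h with h1
    rw [Rep.tr_ap _ _ _ h1] at h
    exact (Option.some.inj h).symm
  · rintro ⟨a, b⟩ n
    refine ⟨n, ?_⟩
    simp only [le_refl, if_true, ap_prod]
    rw [Rep.tr_ap _ _ _ le_rfl]

theorem GF.snd : GF (fun p : α × β => p.2) := by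
  refine ⟨fun p => if p.2 ≤ p.1.2 then some (Rep.tr p.1.1.2 p.2) else none, ?_, ?_, ?_⟩
  · exact Primrec.ite (Primrec.nat_le.comp Primrec.snd (Primrec.snd.comp Primrec.fst))
      (Primrec.option_some.comp (tr_prim' (Primrec.snd.comp (Primrec.fst.comp Primrec.fst))
        Primrec.snd)) (Primrec.const none)
  · rintro ⟨a, b⟩ m n d h
    simp only [ap_prod] at h
    split_ifs at h with h1
    rw [Rep.tr_ap _ _ _ h1] at h
    exact (Option.some.inj h).symm
  · rintro ⟨a, b⟩ n
    refine ⟨n, ?_⟩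
    simp only [le_refl, if_true, ap_prod]
    rw [Rep.tr_ap _ _ _ le_rfl]

theorem GF.nat {F : α → ℕ} (hF : CN F) : GF F := by
  obtain ⟨φ, hφ, h1, h2⟩ := hF
  refine ⟨fun p => φ p.1, hφ.comp Primrec.fst, ?_, ?_⟩
  · intro a m n d h
    exact h1 a m d h
  · intro a n
    exact h2 a

theorem CN.nat {F : α → ℕ} (hF : GF F) : CN F := by
  obtain ⟨φ, hφ, h1, h2⟩ := hF
  refine ⟨fun p => φ (p, 0), hφ.comp (Primrec.pair Primrec.id (Primrec.const 0)), ?_, ?_⟩
  · intro a m d h
    exact h1 a m 0 d h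
  · intro a
    exact h2 a 0

theorem CN.app {F : α → ℕ → ℕ} {G : α → ℕ} (hF : GF F) (hG : CN G) :
    CN (fun a => F a (G a)) := by
  have h : CN (fun p : (ℕ → ℕ) × ℕ => p.1 p.2) := by
    refine ⟨fun p : (List ℕ × ℕ) × ℕ => p.1.1[p.1.2]?,
      Primrec.list_getElem?.comp (Primrec.fst.comp Primrec.fst)
      (Primrec.snd.comp Primrec.fst), ?_, ?_⟩
    · rintro ⟨x, k⟩ m d h
      change (pfx x m)[k]? = some d at h
      rw [pfx_getElem?] at h
      split_ifs at h
      exact (Option.some.inj h).symm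
    · rintro ⟨x, k⟩
      refine ⟨k + 1, ?_⟩
      change (pfx x (k + 1))[k]? = some (x k)
      rw [pfx_getElem?, if_pos (Nat.lt_succ_self k)]
  exact CN.comp h (GF.pair hF (GF.nat hG))

theorem CN.pfx {F : α → ℕ → ℕ} {G : α → ℕ} (hF : GF F) (hG : CN G) :
    CN (fun a => pfx (F a) (G a)) := by
  have h : CN (fun p : (ℕ → ℕ) × ℕ => Eff.pfx p.1 p.2) := by
    refine ⟨fun p : (List ℕ × ℕ) × ℕ => if p.1.2 ≤ p.2 then some (p.1.1.take p.1.2) else none,
      ?_, ?_, ?_⟩
    · exact Primrec.ite (Primrec.nat_le.comp (Primrec.snd.comp Primrec.fst) Primrec.snd)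
        (Primrec.option_some.comp (Primrec.list_take.comp (Primrec.snd.comp Primrec.fst)
          (Primrec.fst.comp Primrec.fst))) (Primrec.const none)
    · rintro ⟨x, k⟩ m d h
      change (if k ≤ m then some ((Eff.pfx x m).take k) else none) = some d at h
      split_ifs at h with h1
      rw [pfx_take x h1] at h
      exact (Option.some.inj h).symm
    · rintro ⟨x, k⟩
      refine ⟨k, ?_⟩
      change (if k ≤ k then some ((Eff.pfx x k).take k) else none) = some (Eff.pfx x k)
      rw [if_pos le_rfl, pfx_take x le_rfl]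
  exact CN.comp h (GF.pair hF (GF.nat hG))

theorem filterMap_range_of_length {f : ℕ → Option ℕ} {x : ℕ → ℕ} {n : ℕ}
    (hs : ∀ k d, f k = some d → d = x k)
    (hl : ((List.range n).filterMap f).length = n) : (List.range n).filterMap f = pfx x n := by
  induction n with
  | zero => rfl
  | succ n ih =>
    rw [List.range_succ, List.filterMap_append] at hl ⊢
    rw [List.length_append] at hl
    have h1 : ((List.range n).filterMap f).length ≤ n := by
      simpa using List.length_filterMap_le f (List.range n)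
    have h2 : ([n].filterMap f).length ≤ 1 := by
      simpa using List.length_filterMap_le f [n]
    have h3 : ((List.range n).filterMap f).length = n := by omega
    have h4 : ([n].filterMap f).length = 1 := by omega
    rw [ih h3, pfx_succ]
    congr 1
    cases hfn : f n with
    | none => simp [hfn] at h4
    | some d => simp [hfn, hs n d hfn]

theorem GF.curry {F : α × ℕ → ℕ} (hF : CN F) : GF (fun a => (fun k => F (a, k) : ℕ → ℕ)) := by
  obtain ⟨φ, hφ, h1, h2⟩ := hF
  -- value of the k-th coordinate found with fuel u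
  let v : (Rep.D α × ℕ) × ℕ → Option ℕ := fun p =>
    ((List.range (p.1.2 + 1)).filterMap fun m => φ ((Rep.tr p.1.1 m, p.2), m)).head?
  have hv : Primrec v := by
    refine Primrec.list_head?.comp (Primrec.listFilterMap
      (Primrec.list_range.comp (Primrec.succ.comp (Primrec.snd.comp Primrec.fst))) ?_)
    exact (hφ.comp (Primrec.pair (Primrec.pair (tr_prim' (Primrec.fst.comp
      (Primrec.fst.comp Primrec.fst)) Primrec.snd) (Primrec.snd.comp Primrec.fst))
      Primrec.snd)).to₂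
  let L : (Rep.D α × ℕ) × ℕ → List ℕ := fun p => (List.range p.2).filterMap fun k => v (p.1, k)
  have hL : Primrec L := by
    refine Primrec.listFilterMap (Primrec.list_range.comp Primrec.snd) ?_
    exact (hv.comp (Primrec.pair (Primrec.fst.comp Primrec.fst) Primrec.snd)).to₂
  have hsound : ∀ a u k d, v ((Rep.ap a u, u), k) = some d → d = F (a, k) := by
    intro a u k d h
    have h3 : d ∈ ((List.range (u + 1)).filterMap fun m => φ ((Rep.tr (Rep.ap a u) m, k), m)) :=
      List.mem_of_mem_head? h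
    rw [List.mem_filterMap] at h3
    obtain ⟨m, hm, hd⟩ := h3
    rw [List.mem_range] at hm
    rw [Rep.tr_ap _ _ _ (Nat.lt_succ_iff.mp hm)] at hd
    exact h1 (a, k) m d hd
  have hcomp : ∀ a k u m, m ≤ u → φ (Rep.ap (a, k) m, m) = some (F (a, k)) →
      v ((Rep.ap a u, u), k) = some (F (a, k)) := by
    intro a k u m hmu hm
    have h3 : F (a, k) ∈ ((List.range (u + 1)).filterMap
        fun m => φ ((Rep.tr (Rep.ap a u) m, k), m)) := by
      rw [List.mem_filterMap]
      refine ⟨m, List.mem_range.mpr (Nat.lt_succ_of_le hmu), ?_⟩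
      rw [Rep.tr_ap _ _ _ hmu]
      exact hm
    have h4 : v ((Rep.ap a u, u), k) ≠ none := by
      intro h5
      change List.head? _ = none at h5
      rw [List.head?_eq_none_iff] at h5
      rw [h5] at h3
      simp at h3
    obtain ⟨d, hd⟩ := Option.ne_none_iff_exists'.mp h4
    rw [hd, hsound a u k d hd]
  refine ⟨fun p => if (L p).length = p.2 then some (L p) else none, ?_, ?_, ?_⟩
  · exact Primrec.ite (Primrec.eq.comp (Primrec.list_length.comp hL) Primrec.snd)
      (Primrec.option_some.comp hL) (Primrec.const none)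
  · intro a m n d h
    change (if (L ((Rep.ap a m, m), n)).length = n then some (L ((Rep.ap a m, m), n)) else none)
      = some d at h
    split_ifs at h with h3
    have h4 := Option.some.inj h
    rw [← h4, ap_real]
    exact filterMap_range_of_length (fun k d hd => hsound a m k d hd) h3
  · intro a n
    choose M hM using fun k => h2 (a, k)
    refine ⟨(Finset.range n).sup M, ?_⟩
    set u := (Finset.range n).sup M with hu
    have hval : ∀ k < n, v ((Rep.ap a u, u), k) = some (F (a, k)) := fun k hk =>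
      hcomp a k u (M k) (Finset.le_sup (f := M) (Finset.mem_range.mpr hk)) (hM k)
    have hLv : L ((Rep.ap a u, u), n) = pfx (fun k => F (a, k)) n := by
      change (List.range n).filterMap (fun k => v ((Rep.ap a u, u), k)) = (List.range n).map _
      rw [List.filterMap_congr (g := fun k => some (F (a, k)))
        (fun k hk => hval k (List.mem_range.mp hk))]
      simp
    change (if (L ((Rep.ap a u, u), n)).length = n then some (L ((Rep.ap a u, u), n)) else none)
      = some (Rep.ap (fun k => F (a, k)) n)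
    rw [hLv, pfx_length, if_pos rfl, ap_real]

/-- Effectively closed predicates. -/
def Cl (P : α → Prop) : Prop :=
  ∃ R : Rep.D α × ℕ → Bool, Primrec R ∧ ∀ a, P a ↔ ∀ n, R (Rep.ap a n, n) = true

theorem Cl.comp {P : β → Prop} {F : α → β} (hP : Cl P) (hF : GF F) : Cl (fun a => P (F a)) := by
  obtain ⟨R, hR, h⟩ := hP
  obtain ⟨φ, hφ, h1, h2⟩ := hF
  refine ⟨fun p => ((φ ((Rep.tr p.1 p.2.unpair.1, p.2.unpair.1), p.2.unpair.2)).map
    fun d => R (d, p.2.unpair.2)).getD true, ?_, ?_⟩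
  · have hu1 : Primrec fun p : Rep.D α × ℕ => p.2.unpair.1 :=
      Primrec.fst.comp (Primrec.unpair.comp Primrec.snd)
    have hu2 : Primrec fun p : Rep.D α × ℕ => p.2.unpair.2 :=
      Primrec.snd.comp (Primrec.unpair.comp Primrec.snd)
    refine Primrec.option_getD.comp (Primrec.option_map
      (hφ.comp (Primrec.pair (Primrec.pair (tr_prim' Primrec.fst hu1) hu1) hu2)) ?_)
      (Primrec.const true)
    exact (hR.comp (Primrec.pair Primrec.snd (hu2.comp Primrec.fst))).to₂
  · intro a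
    beta_reduce
    rw [h]
    constructor
    · intro hall u
      rw [Rep.tr_ap _ _ _ (Nat.unpair_left_le u)]
      cases hd : φ ((Rep.ap a u.unpair.1, u.unpair.1), u.unpair.2) with
      | none => rfl
      | some d =>
        have := h1 _ _ _ _ hd
        subst this
        exact hall _
    · intro hall n
      obtain ⟨m, hm⟩ := h2 a n
      have h3 := hall (Nat.pair m n)
      have e1 : (Nat.pair m n).unpair.1 = m := by simp
      have e2 : (Nat.pair m n).unpair.2 = n := by simp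
      have l1 : m ≤ Nat.pair m n := Nat.left_le_pair m n
      simpa only [e1, e2, Rep.tr_ap _ _ _ l1, hm, Option.map_some, Option.getD_some] using h3

theorem Cl.of_iff {P Q : α → Prop} (hP : Cl P) (h : ∀ a, Q a ↔ P a) : Cl Q := by
  obtain ⟨R, hR, h1⟩ := hP
  exact ⟨R, hR, fun a => (h a).trans (h1 a)⟩

theorem Cl.dec {F : α → Bool} (hF : CN F) : Cl (fun a => F a = true) := by
  obtain ⟨φ, hφ, h1, h2⟩ := hF
  refine ⟨fun p => (φ p).getD true, Primrec.option_getD.comp hφ (Primrec.const true), ?_⟩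
  intro a
  beta_reduce
  constructor
  · intro h n
    cases hd : φ (Rep.ap a n, n) with
    | none => rfl
    | some d => rw [h1 _ _ _ hd, h]; rfl
  · intro h
    obtain ⟨m, hm⟩ := h2 a
    have := h m
    rw [hm] at this
    exact this

theorem Cl.and {P Q : α → Prop} (hP : Cl P) (hQ : Cl Q) : Cl (fun a => P a ∧ Q a) := by
  obtain ⟨R, hR, h1⟩ := hP
  obtain ⟨S, hS, h2⟩ := hQ
  refine ⟨fun p => R p && S p, Primrec.and.comp hR hS, fun a => ?_⟩
  beta_reduce
  rw [h1, h2]
  simp only [Bool.and_eq_true]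
  exact forall_and.symm

theorem Cl.or {P Q : α → Prop} (hP : Cl P) (hQ : Cl Q) : Cl (fun a => P a ∨ Q a) := by
  obtain ⟨R, hR, h1⟩ := hP
  obtain ⟨S, hS, h2⟩ := hQ
  refine ⟨fun p => R (Rep.tr p.1 p.2.unpair.1, p.2.unpair.1) ||
    S (Rep.tr p.1 p.2.unpair.2, p.2.unpair.2), ?_, fun a => ?_⟩
  · have hu1 : Primrec fun p : Rep.D α × ℕ => p.2.unpair.1 :=
      Primrec.fst.comp (Primrec.unpair.comp Primrec.snd)
    have hu2 : Primrec fun p : Rep.D α × ℕ => p.2.unpair.2 :=
      Primrec.snd.comp (Primrec.unpair.comp Primrec.snd)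
    exact Primrec.or.comp (hR.comp (Primrec.pair (tr_prim' Primrec.fst hu1) hu1))
      (hS.comp (Primrec.pair (tr_prim' Primrec.fst hu2) hu2))
  · beta_reduce
    rw [h1, h2]
    constructor
    · rintro (h | h) n
      · simp only [Rep.tr_ap _ _ _ (Nat.unpair_left_le n), h, Bool.true_or]
      · simp only [Rep.tr_ap _ _ _ (Nat.unpair_right_le n), h, Bool.or_true]
    · intro h
      by_contra hcon
      push Not at hcon
      obtain ⟨⟨m, hm⟩, n, hn⟩ := hcon
      have h3 := h (Nat.pair m n)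
      have e1 : (Nat.pair m n).unpair.1 = m := by simp
      have e2 : (Nat.pair m n).unpair.2 = n := by simp
      have l1 : m ≤ Nat.pair m n := Nat.left_le_pair m n
      have l2 : n ≤ Nat.pair m n := Nat.right_le_pair m n
      simp only [e1, e2, Rep.tr_ap _ _ _ l1, Rep.tr_ap _ _ _ l2, Bool.or_eq_true] at h3
      rcases h3 with h3 | h3
      · exact hm h3
      · exact hn h3

theorem Cl.allN {P : α × ℕ → Prop} (hP : Cl P) : Cl (fun a => ∀ k, P (a, k)) := by
  obtain ⟨R, hR, h1⟩ := hP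
  refine ⟨fun p => R ((Rep.tr p.1 p.2.unpair.2, p.2.unpair.1), p.2.unpair.2), ?_, fun a => ?_⟩
  · have hu1 : Primrec fun p : Rep.D α × ℕ => p.2.unpair.1 :=
      Primrec.fst.comp (Primrec.unpair.comp Primrec.snd)
    have hu2 : Primrec fun p : Rep.D α × ℕ => p.2.unpair.2 :=
      Primrec.snd.comp (Primrec.unpair.comp Primrec.snd)
    exact hR.comp (Primrec.pair (Primrec.pair (tr_prim' Primrec.fst hu2) hu1) hu2)
  · constructor
    · intro h u
      have := (h1 (a, u.unpair.1)).mp (h _) u.unpair.2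
      rw [ap_prod] at this
      simp only [Rep.tr_ap _ _ _ (Nat.unpair_right_le u)]
      exact this
    · intro h k
      rw [h1]
      intro n
      have h3 := h (Nat.pair k n)
      have e1 : (Nat.pair k n).unpair.1 = k := by simp
      have e2 : (Nat.pair k n).unpair.2 = n := by simp
      have l2 : n ≤ Nat.pair k n := Nat.right_le_pair k n
      simp only [e1, e2, Rep.tr_ap _ _ _ l2] at h3
      exact h3

/-- Lightface Sigma-1-1 predicates. -/
def S11 (P : α → Prop) : Prop :=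
  ∃ Q : α × (ℕ → ℕ) → Prop, Cl Q ∧ ∀ a, P a ↔ ∃ w, Q (a, w)

theorem S11.of_iff {P Q : α → Prop} (hP : S11 P) (h : ∀ a, Q a ↔ P a) : S11 Q := by
  obtain ⟨R, hR, h1⟩ := hP
  exact ⟨R, hR, fun a => (h a).trans (h1 a)⟩

theorem S11.comp {P : β → Prop} {F : α → β} (hP : S11 P) (hF : GF F) : S11 (fun a => P (F a)) := by
  obtain ⟨Q, hQ, h⟩ := hP
  exact ⟨fun p => Q (F p.1, p.2), hQ.comp (GF.pair (hF.comp GF.fst) GF.snd), fun a => h (F a)⟩

theorem S11.cl {P : α → Prop} (hP : Cl P) : S11 P :=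
  ⟨fun p => P p.1, hP.comp GF.fst, fun _ => ⟨fun h => ⟨fun _ => 0, h⟩, fun ⟨_, h⟩ => h⟩⟩

theorem S11.dec {F : α → Bool} (hF : CN F) : S11 (fun a => F a = true) := S11.cl (Cl.dec hF)

theorem S11.not_cl {P : α → Prop} (hP : Cl P) : S11 (fun a => ¬ P a) := by
  obtain ⟨R, hR, h⟩ := hP
  refine ⟨fun p => R (Rep.ap p.1 (p.2 0), p.2 0) = false, ?_, ?_⟩
  · have hc : CN (fun p : α × (ℕ → ℕ) => !(R (Rep.ap p.1 (p.2 0), p.2 0))) := by
      refine ⟨fun p : (Rep.D α × List ℕ) × ℕ => (p.1.2[0]?).bind fun k =>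
        if k ≤ p.2 then some (!(R (Rep.tr p.1.1 k, k))) else none, ?_, ?_, ?_⟩
      · refine Primrec.option_bind (Primrec.list_getElem?.comp (Primrec.snd.comp Primrec.fst)
          (Primrec.const 0)) ?_
        refine Primrec.ite (Primrec.nat_le.comp Primrec.snd (Primrec.snd.comp Primrec.fst)) ?_
          (Primrec.const none)
        refine Primrec.option_some.comp (Primrec.not.comp (hR.comp (Primrec.pair
          (tr_prim' (Primrec.fst.comp (Primrec.fst.comp Primrec.fst)) Primrec.snd) Primrec.snd)))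
      · rintro ⟨a, w⟩ m d hd
        rw [Option.bind_eq_some_iff] at hd
        obtain ⟨k, hk, hd⟩ := hd
        change (pfx w m)[0]? = some k at hk
        rw [pfx_getElem?] at hk
        split_ifs at hk
        have hk' := Option.some.inj hk
        simp only at hd
        split_ifs at hd with h3
        change some (!(R (Rep.tr (Rep.ap a m) k, k))) = some d at hd
        rw [Rep.tr_ap _ _ _ h3] at hd
        rw [← Option.some.inj hd, ← hk']
      · rintro ⟨a, w⟩
        refine ⟨w 0 + 1, ?_⟩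
        change ((pfx w (w 0 + 1))[0]?.bind fun k => if k ≤ w 0 + 1 then
          some (!(R (Rep.tr (Rep.ap a (w 0 + 1)) k, k))) else none) = _
        rw [pfx_getElem?, if_pos (Nat.succ_pos _), Option.bind_some,
          if_pos (Nat.le_succ _), Rep.tr_ap _ _ _ (Nat.le_succ _)]
    refine (Cl.dec hc).of_iff fun p => ?_
    simp
  · intro a
    beta_reduce
    rw [h]
    simp only [not_forall, Bool.not_eq_true]
    constructor
    · rintro ⟨n, hn⟩
      exact ⟨fun _ => n, hn⟩
    · rintro ⟨w, hw⟩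
      exact ⟨w 0, hw⟩

/-- even part -/
def evn (w : ℕ → ℕ) : ℕ → ℕ := fun n => w (2 * n)
/-- odd part -/
def odd (w : ℕ → ℕ) : ℕ → ℕ := fun n => w (2 * n + 1)
/-- interleaving -/
def join (x y : ℕ → ℕ) : ℕ → ℕ := fun n => if n % 2 = 0 then x (n / 2) else y (n / 2)
/-- column -/
def col (w : ℕ → ℕ) (k : ℕ) : ℕ → ℕ := fun n => w (Nat.pair k n)

@[simp] theorem evn_join (x y : ℕ → ℕ) : evn (join x y) = x := by
  funext n; simp [evn, join]

@[simp] theorem odd_join (x y : ℕ → ℕ) : odd (join x y) = y := by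
  funext n
  have h1 : (2 * n + 1) % 2 = 1 := by omega
  have h2 : (2 * n + 1) / 2 = n := by omega
  simp [odd, join, h1, h2]

@[simp] theorem join_evn_odd (w : ℕ → ℕ) : join (evn w) (odd w) = w := by
  funext n
  by_cases h : n % 2 = 0
  · simp only [join, evn, h, if_true]
    congr 1; omega
  · simp only [join, odd, h, if_false]
    congr 1; omega

theorem GF.evn {F : α → ℕ → ℕ} (hF : GF F) : GF (fun a => evn (F a)) :=
  GF.curry (F := fun p : α × ℕ => F p.1 (2 * p.2))
    (CN.app (hF.comp GF.fst) (CN.prim Primrec.nat_double (CN.nat GF.snd)))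

theorem GF.odd {F : α → ℕ → ℕ} (hF : GF F) : GF (fun a => odd (F a)) :=
  GF.curry (F := fun p : α × ℕ => F p.1 (2 * p.2 + 1))
    (CN.app (hF.comp GF.fst) (CN.prim (f := fun n : ℕ => 2 * n + 1) Primrec.nat_double_succ
      (CN.nat GF.snd)))

theorem CN.ite {c : α → Bool} {F G : α → δ} (hc : CN c) (hF : CN F) (hG : CN G) :
    CN (fun a => if c a = true then F a else G a) := by
  have h : Primrec fun p : Bool × δ × δ => if p.1 = true then p.2.1 else p.2.2 := by
    refine (Primrec.cond Primrec.fst (Primrec.fst.comp Primrec.snd)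
      (Primrec.snd.comp Primrec.snd)).of_eq ?_
    rintro ⟨b, x, y⟩
    cases b <;> rfl
  exact CN.prim h (CN.pair hc (CN.pair hF hG))

theorem GF.join {F G : α → ℕ → ℕ} (hF : GF F) (hG : GF G) :
    GF (fun a => join (F a) (G a)) := by
  have hd : Primrec fun n : ℕ => n / 2 := Primrec.nat_div.comp Primrec.id (Primrec.const 2)
  have hm : Primrec fun n : ℕ => decide (n % 2 = 0) :=
    (Primrec.eq.comp (Primrec.nat_mod.comp Primrec.id (Primrec.const 2)) (Primrec.const 0)).decide
  have h : CN (fun p : α × ℕ => if decide (p.2 % 2 = 0) = true then F p.1 (p.2 / 2)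
      else G p.1 (p.2 / 2)) :=
    CN.ite (CN.prim hm (CN.nat GF.snd))
      (CN.app (hF.comp GF.fst) (CN.prim hd (CN.nat GF.snd)))
      (CN.app (hG.comp GF.fst) (CN.prim hd (CN.nat GF.snd)))
  have h2 := GF.curry h
  have e : (fun a => Eff.join (F a) (G a)) = fun a => (fun k => if decide (k % 2 = 0) = true
      then F a (k / 2) else G a (k / 2) : ℕ → ℕ) := by
    funext a k
    simp [Eff.join]
  rw [e]
  exact h2

theorem GF.col {F : α → ℕ → ℕ} {G : α → ℕ} (hF : GF F) (hG : CN G) :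
    GF (fun a => col (F a) (G a)) :=
  GF.curry (F := fun p : α × ℕ => F p.1 (Nat.pair (G p.1) p.2))
    (CN.app (hF.comp GF.fst) (CN.prim2 Primrec₂.natPair (hG.comp GF.fst) (CN.nat GF.snd)))

theorem S11.and {P Q : α → Prop} (hP : S11 P) (hQ : S11 Q) : S11 (fun a => P a ∧ Q a) := by
  obtain ⟨R, hR, h1⟩ := hP
  obtain ⟨S, hS, h2⟩ := hQ
  refine ⟨fun p => R (p.1, Eff.evn p.2) ∧ S (p.1, Eff.odd p.2),
    (hR.comp (GF.pair GF.fst (GF.evn GF.snd))).and (hS.comp (GF.pair GF.fst (GF.odd GF.snd))),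
    fun a => ?_⟩
  beta_reduce
  rw [h1, h2]
  constructor
  · rintro ⟨⟨w, hw⟩, v, hv⟩
    exact ⟨Eff.join w v, by simpa using hw, by simpa using hv⟩
  · rintro ⟨w, hw, hv⟩
    exact ⟨⟨_, hw⟩, _, hv⟩

theorem S11.or {P Q : α → Prop} (hP : S11 P) (hQ : S11 Q) : S11 (fun a => P a ∨ Q a) := by
  obtain ⟨R, hR, h1⟩ := hP
  obtain ⟨S, hS, h2⟩ := hQ
  refine ⟨fun p => R p ∨ S p, hR.or hS, fun a => ?_⟩
  beta_reduce
  rw [h1, h2, exists_or]

theorem S11.exR {P : α × (ℕ → ℕ) → Prop} (hP : S11 P) : S11 (fun a => ∃ x, P (a, x)) := by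
  obtain ⟨Q, hQ, h⟩ := hP
  refine ⟨fun p => Q ((p.1, Eff.evn p.2), Eff.odd p.2),
    hQ.comp (GF.pair (GF.pair GF.fst (GF.evn GF.snd)) (GF.odd GF.snd)), fun a => ?_⟩
  constructor
  · rintro ⟨x, hx⟩
    obtain ⟨w, hw⟩ := (h _).mp hx
    exact ⟨Eff.join x w, by simpa using hw⟩
  · rintro ⟨w, hw⟩
    exact ⟨_, (h _).mpr ⟨_, hw⟩⟩

theorem S11.exN {P : α × ℕ → Prop} (hP : S11 P) : S11 (fun a => ∃ k, P (a, k)) := by
  have h1 : S11 (fun p : α × (ℕ → ℕ) => P (p.1, p.2 0)) :=
    hP.comp (GF.pair GF.fst (GF.nat (CN.app GF.snd (CN.const 0))))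
  refine h1.exR.of_iff fun a => ?_
  constructor
  · rintro ⟨k, hk⟩
    exact ⟨fun _ => k, hk⟩
  · rintro ⟨x, hx⟩
    exact ⟨x 0, hx⟩

theorem S11.allN {P : α × ℕ → Prop} (hP : S11 P) : S11 (fun a => ∀ k, P (a, k)) := by
  obtain ⟨Q, hQ, h⟩ := hP
  refine ⟨fun p => ∀ k, Q ((p.1, k), Eff.col p.2 k), ?_, fun a => ?_⟩
  · refine Cl.allN (P := fun q : (α × (ℕ → ℕ)) × ℕ => Q ((q.1.1, q.2), Eff.col q.1.2 q.2)) ?_
    exact hQ.comp (GF.pair (GF.pair (GF.comp GF.fst GF.fst) GF.snd)
      (GF.col (GF.comp GF.snd GF.fst) (CN.nat GF.snd)))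
  · constructor
    · intro hall
      choose w hw using fun k => (h (a, k)).mp (hall k)
      refine ⟨fun n => w n.unpair.1 n.unpair.2, fun k => ?_⟩
      have : Eff.col (fun n => w n.unpair.1 n.unpair.2) k = w k := by
        funext n; simp [Eff.col]
      simp only [this]
      exact hw k
    · rintro ⟨w, hw⟩ k
      exact (h _).mpr ⟨_, hw k⟩

end Pool.Agent.Helper750.Eff
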