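import Pool.Agent.Helper750.Diag

set_option autoImplicit false

/-!
The diagonal equivalence relation is not reducible to `E` by a Baire measurable map.
-/

namespace Pool.Agent.Helper750.Diag

open Encodable Pool.Agent.Helper750.Eff Pool.Agent.Helper750.Basis
  Pool.Agent.Helper750.KL Pool.Agent.Helper750.Sig Set Filter Topology

/-- one step of the map `tau` -/
def stp (d x : ℕ → ℕ) (j v : ℕ) : ℕ := if br (join d x) j = true then flp v else v

theorem tau_apply (d x : ℕ → ℕ) (j : ℕ) : tau d x j = stp d x j (x j) := rfl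

theorem stp_stp (d x : ℕ → ℕ) (j v : ℕ) : stp d x j (stp d x j v) = v := by
  unfold stp
  split_ifs
  · exact flp_flp v
  · rfl

theorem stp_congr {d x x' : ℕ → ℕ} {j : ℕ} (h : ∀ i, i < j → x i = x' i) (v : ℕ) :
    stp d x j v = stp d x' j v := by
  have h1 : pfx (join d x) (node j).length = pfx (join d x') (node j).length := by
    unfold pfx
    refine List.map_congr_left fun i hi => ?_
    rw [List.mem_range] at hi
    have h2 := length_node_le j
    unfold Eff.join
    by_cases h3 : i % 2 = 0
    · simp [h3]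
    · simp only [h3, if_false]
      exact h _ (by omega)
  have h2 : br (join d x) j = br (join d x') j := by
    unfold br
    rw [h1]
  unfold stp
  rw [h2]

/-- the initial segments of the inverse image -/
def pre (d y : ℕ → ℕ) : ℕ → List ℕ
  | 0 => []
  | n + 1 => pre d y n ++ [stp d (fun i => (pre d y n).getD i 0) n (y n)]

def inv (d y : ℕ → ℕ) : ℕ → ℕ := fun n => stp d (fun i => (pre d y n).getD i 0) n (y n)

theorem pre_eq (d y : ℕ → ℕ) (n : ℕ) : pre d y n = pfx (inv d y) n := by
  induction n with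
  | zero => rfl
  | succ n ih =>
    rw [pfx_succ, ← ih]
    rfl

theorem inv_apply (d y : ℕ → ℕ) (n : ℕ) : inv d y n = stp d (inv d y) n (y n) := by
  conv_lhs => unfold inv
  refine stp_congr (fun i hi => ?_) _
  rw [pre_eq, pfx_getD _ hi]

theorem tau_inv (d y : ℕ → ℕ) : tau d (inv d y) = y := by
  funext n
  rw [tau_apply, inv_apply, stp_stp]

theorem inv_tau (d x : ℕ → ℕ) : inv d (tau d x) = x := by
  funext n
  induction n using Nat.strong_induction_on with
  | _ n ih =>
    rw [inv_apply, tau_apply, stp_congr (x' := x) (fun i hi => ih i hi), stp_stp]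

theorem continuous_of_local {f : (ℕ → ℕ) → (ℕ → ℕ)}
    (h : ∀ x x' n, (∀ i, i ≤ n → x i = x' i) → f x n = f x' n) : Continuous f := by
  refine continuous_pi fun n => ?_
  refine (IsLocallyConstant.iff_continuous _).mp ?_
  rw [IsLocallyConstant.iff_exists_open]
  intro x
  refine ⟨⋂ i ∈ Finset.range (n + 1), {y : ℕ → ℕ | y i = x i}, ?_, ?_, ?_⟩
  · exact isOpen_biInter_finset fun i _ =>
      (isOpen_discrete {x i}).preimage (continuous_apply (A := fun _ : ℕ => ℕ) i)
  · simp
  · intro y hy
    simp only [mem_iInter, Finset.mem_range, mem_ofPred_eq] at hy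
    exact h y x n fun i hi => hy i (Nat.lt_succ_of_le hi)

theorem continuous_tau (d : ℕ → ℕ) : Continuous (tau d) := by
  refine continuous_of_local fun x x' n h => ?_
  rw [tau_apply, tau_apply, stp_congr (fun i hi => h i hi.le), h n le_rfl]

theorem inv_local (d : ℕ → ℕ) (n : ℕ) : ∀ x x' : ℕ → ℕ, (∀ i, i ≤ n → x i = x' i) →
    inv d x n = inv d x' n := by
  induction n using Nat.strong_induction_on with
  | _ n ih =>
    intro x x' h
    rw [inv_apply, inv_apply d x', h n le_rfl]
    refine stp_congr (fun i hi => ih i hi x x' fun i' hi' => h i' (hi'.trans hi.le)) _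

theorem continuous_inv (d : ℕ → ℕ) : Continuous (inv d) :=
  continuous_of_local fun x x' n h => inv_local d n x x' h

theorem isOpenMap_tau (d : ℕ → ℕ) : IsOpenMap (tau d) := by
  intro U hU
  have h : tau d '' U = inv d ⁻¹' U := by
    ext y
    constructor
    · rintro ⟨x, hx, rfl⟩
      rw [mem_preimage, inv_tau]
      exact hx
    · intro hy
      exact ⟨inv d y, hy, tau_inv d y⟩
  rw [h]
  exact hU.preimage (continuous_inv d)

theorem exists_pfx_subset {U : Set (ℕ → ℕ)} (hU : IsOpen U) {x : ℕ → ℕ} (hx : x ∈ U) :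
    ∃ l, ∀ y : ℕ → ℕ, pfx y l = pfx x l → y ∈ U := by
  rw [isOpen_pi_iff] at hU
  obtain ⟨I, u, hu, hIU⟩ := hU x hx
  refine ⟨I.sup id + 1, fun y hy => hIU ?_⟩
  intro j hj
  have hj' : j < I.sup id + 1 := Nat.lt_succ_of_le (Finset.le_sup (f := id) hj)
  have h1 : y j = x j := by
    rw [← pfx_getD y hj' 0, hy, pfx_getD x hj']
  rw [h1]
  exact (hu j hj).2

/-- Every Baire measurable map is coded on a comeager set. -/
theorem exists_code {φ : (ℕ → ℕ) → (ℕ → ℕ)}
    (hφ : ∀ n k, BaireMeasurableSet {x : ℕ → ℕ | φ x n = k}) :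
    ∃ d : ℕ → ℕ, ∀ᶠ x in residual (ℕ → ℕ), Ev d x (φ x) := by
  classical
  choose U hU hAU using fun n k => (hφ n k).residualEq_isOpen
  let P : ℕ → ℕ → Prop := fun m k => ∀ x : ℕ → ℕ,
    pfx x (node m.unpair.1).length = node m.unpair.1 → x ∈ U m.unpair.2 k
  let d : ℕ → ℕ := fun m => if h : ∃ k, P m k then h.choose + 1 else 0
  have hd : ∀ m, d m ≠ 0 → ∃ k, P m k ∧ d m = k + 1 := by
    intro m hm
    by_cases h : ∃ k, P m k
    · exact ⟨h.choose, h.choose_spec, dif_pos h⟩
    · exact absurd (dif_neg h) hm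
  refine ⟨d, ?_⟩
  have hC : ∀ᶠ x in residual (ℕ → ℕ), ∀ n k, (φ x n = k ↔ x ∈ U n k) := by
    rw [eventually_countable_forall]
    intro n
    rw [eventually_countable_forall]
    intro k
    exact eventuallyEq_set.mp (hAU n k)
  filter_upwards [hC] with x hx
  intro n
  have hPx : ∀ l k, P (Nat.pair (encode (pfx x l)) n) k → φ x n = k := by
    intro l k h
    rw [hx]
    have := h x
    rw [Nat.unpair_pair] at this
    simp only [node_encode, pfx_length] at this
    exact this trivial
  have hex : ∃ l, d (Nat.pair (encode (pfx x l)) n) ≠ 0 := by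
    have h1 : x ∈ U n (φ x n) := (hx n _).mp rfl
    obtain ⟨l, hl⟩ := exists_pfx_subset (hU n _) h1
    refine ⟨l, ?_⟩
    have h2 : ∃ k, P (Nat.pair (encode (pfx x l)) n) k := by
      refine ⟨φ x n, fun y hy => ?_⟩
      rw [Nat.unpair_pair] at hy ⊢
      simp only [node_encode, pfx_length] at hy ⊢
      exact hl y hy
    have h3 : d (Nat.pair (encode (pfx x l)) n) = h2.choose + 1 := dif_pos h2
    rw [h3]
    exact Nat.succ_ne_zero _
  refine ⟨Nat.find hex, ?_, fun l' hl' => not_not.mp (Nat.find_min hex hl')⟩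
  obtain ⟨k, hk, hdk⟩ := hd _ (Nat.find_spec hex)
  rw [hdk, hPx _ _ hk]

theorem not_reducible (E : (ℕ → ℕ) → (ℕ → ℕ) → Prop) {φ : (ℕ → ℕ) → (ℕ → ℕ)}
    (hφ : ∀ n k, BaireMeasurableSet {x : ℕ → ℕ | φ x n = k}) :
    ¬ ∀ x y, G E x y ↔ E (φ x) (φ y) := by
  intro hred
  obtain ⟨d, hd⟩ := exists_code hφ
  have h1 := (tendsto_residual_of_isOpenMap (continuous_tau d) (isOpenMap_tau d)).eventually hd
  obtain ⟨x, hx1, hx2⟩ := (dense_of_mem_residual (hd.and h1)).nonempty
  -- the code
  have hDD : DD E (join d x) ↔ ¬ E (φ x) (φ (tau d x)) := by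
    unfold DD
    rw [evn_join, odd_join]
    constructor
    · rintro ⟨y, y', hy, hy', h⟩
      rw [hx1.unique hy, hx2.unique hy']
      exact h
    · intro h
      exact ⟨_, _, hx1, hx2, h⟩
  have hG : G E x (tau d x) ↔ DD E (join d x) := by
    constructor
    · intro hG
      by_contra hnD
      have : ¬ G E x (tau d x) := by
        rw [not_G_iff]
        right
        refine ⟨join d x, hnD, fun m => ⟨encode (pfx (join d x) m), ?_, ?_, br_encode _ _⟩⟩
        · have := le_encode_list (pfx (join d x) m)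
          rwa [pfx_length] at this
        · have h2 : tau d x (encode (pfx (join d x) m)) = flp (x (encode (pfx (join d x) m))) :=
            if_pos (br_encode _ _)
          rw [h2]
          exact (flp_ne _).symm
      exact this hG
    · intro hD
      refine ⟨1, fun n => (fun _ : ℕ => join d x) n.unpair.1 n.unpair.2, 0, ?_, ?_⟩
      · intro i _
        rw [col_mk (fun _ : ℕ => join d x) i]
        exact hD
      · intro j _ hne
        refine ⟨0, one_pos, ?_⟩
        rw [col_mk (fun _ : ℕ => join d x) 0]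
        by_contra hb
        apply hne
        exact (if_neg hb).symm
  have h3 := hred x (tau d x)
  rw [hG, hDD] at h3
  by_cases h : E (φ x) (φ (tau d x))
  · exact (h3.mpr h) h
  · exact h (h3.mp h)

end Pool.Agent.Helper750.Diag
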