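import Pool.Agent.Helper750.Basis

set_option autoImplicit false

namespace Pool.Agent.Helper750.KL

open Encodable Nat.Partrec Pool.Agent.Helper750.Eff Pool.Agent.Helper750.Basis

variable {α : Type} [Rep α]

theorem encode_take_le (t : List ℕ) (j : ℕ) : encode (t.take j) ≤ encode t := by
  induction t generalizing j with
  | nil => simp
  | cons a l ih =>
    cases j with
    | zero => simp
    | succ j =>
      rw [List.take_succ_cons, encode_list_cons, encode_list_cons]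
      have h1 := ih j
      rcases Nat.eq_or_lt_of_le h1 with h | h
      · rw [h]
      · exact Nat.succ_le_succ (Nat.le_of_lt (Nat.pair_lt_pair_right _ h))

def imgL (s t : List ℕ) : List ℕ :=
  (List.range t.length).map fun j => s.getD (encode (t.take (j + 1))) 0

theorem imgL_primrec : Primrec₂ imgL := by
  refine Primrec.list_map (Primrec.list_range.comp (Primrec.list_length.comp Primrec.snd)) ?_
  exact ((Primrec.list_getD 0).comp (Primrec.fst.comp Primrec.fst) (Primrec.encode.comp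
    (Primrec.list_take.comp (Primrec.succ.comp Primrec.snd) (Primrec.snd.comp Primrec.fst)))).to₂

theorem imgL_pfx (h : ℕ → ℕ) (t : List ℕ) : imgL (pfx h (encode t + 1)) t = img h t := by
  unfold imgL img
  refine List.map_congr_left fun j _ => ?_
  rw [pfx_getD]
  exact Nat.lt_succ_of_le (encode_take_le t _)

theorem CN_UR {i m : α → ℕ} {s t : α → List ℕ} (hi : CN i) (hm : CN m) (hs : CN s) (ht : CN t) :
    CN (fun a => UR (i a) (m a) (s a) (t a)) :=
  CN.prim UR_primrec (CN.pair (CN.pair hi hm) (CN.pair hs ht))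

theorem CN_img {h : α → ℕ → ℕ} {t : α → List ℕ} (hh : GF h) (ht : CN t) :
    CN (fun a => img (h a) (t a)) := by
  have h1 : CN (fun a => imgL (pfx (h a) (encode (t a) + 1)) (t a)) :=
    CN.prim2 imgL_primrec (CN.pfx hh (CN.prim (f := fun t : List ℕ => encode t + 1)
      (Primrec.succ.comp Primrec.encode) ht)) ht
  have e : (fun a => imgL (pfx (h a) (encode (t a) + 1)) (t a)) = fun a => img (h a) (t a) := by
    funext a
    exact imgL_pfx _ _
  rw [e] at h1
  exact h1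

theorem S11_Leq {i m k k' : α → ℕ} {x : α → ℕ → ℕ} (hi : CN i) (hm : CN m) (hk : CN k)
    (hk' : CN k') (hx : GF x) :
    S11 (fun a => Leq (T (i a) (x a) (m a) (k a)) (T (i a) (x a) (m a) (k' a))) := by
  let B : (α × (ℕ → ℕ)) × ℕ → Bool := fun c =>
    !(UR (i c.1.1) (Nat.pair (m c.1.1) (k c.1.1))
        (pfx (x c.1.1) (Denumerable.ofNat (List ℕ) c.2).length) (Denumerable.ofNat (List ℕ) c.2)) ||
    UR (i c.1.1) (Nat.pair (m c.1.1) (k' c.1.1))
        (pfx (x c.1.1) (Denumerable.ofNat (List ℕ) c.2).length)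
        (img c.1.2 (Denumerable.ofNat (List ℕ) c.2))
  have ha : GF (fun c : (α × (ℕ → ℕ)) × ℕ => c.1.1) := GF.fst.comp GF.fst
  have hh : GF (fun c : (α × (ℕ → ℕ)) × ℕ => c.1.2) := GF.snd.comp GF.fst
  have ht : CN (fun c : (α × (ℕ → ℕ)) × ℕ => Denumerable.ofNat (List ℕ) c.2) :=
    CN.prim (Primrec.ofNat (List ℕ)) (CN.nat GF.snd)
  have hl : CN (fun c : (α × (ℕ → ℕ)) × ℕ => (Denumerable.ofNat (List ℕ) c.2).length) :=
    CN.prim Primrec.list_length ht
  have hB : CN B := by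
    refine CN.prim2 Primrec.or (CN.prim Primrec.not ?_) ?_
    · exact CN_UR (hi.comp ha) (CN.prim2 Primrec₂.natPair (hm.comp ha) (hk.comp ha))
        (CN.pfx (hx.comp ha) hl) ht
    · exact CN_UR (hi.comp ha) (CN.prim2 Primrec₂.natPair (hm.comp ha) (hk'.comp ha))
        (CN.pfx (hx.comp ha) hl) (CN_img hh ht)
  refine (S11.exR (S11.allN (S11.dec hB))).of_iff fun a => ?_
  refine exists_congr fun h => ?_
  constructor
  · intro hall u
    change (!(UR (i a) (Nat.pair (m a) (k a))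
        (pfx (x a) (Denumerable.ofNat (List ℕ) u).length) (Denumerable.ofNat (List ℕ) u)) ||
      UR (i a) (Nat.pair (m a) (k' a))
        (pfx (x a) (Denumerable.ofNat (List ℕ) u).length)
        (img h (Denumerable.ofNat (List ℕ) u))) = true
    have h1 := hall (Denumerable.ofNat (List ℕ) u)
    unfold T at h1
    rw [img_length] at h1
    rw [Bool.or_eq_true, Bool.not_eq_true']
    by_cases h2 : UR (i a) (Nat.pair (m a) (k a))
        (pfx (x a) (Denumerable.ofNat (List ℕ) u).length) (Denumerable.ofNat (List ℕ) u) = true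
    · exact Or.inr (h1 h2)
    · exact Or.inl (by simpa using h2)
  · intro hall t ht
    have h1 := hall (encode t)
    change (!(UR (i a) (Nat.pair (m a) (k a))
        (pfx (x a) (Denumerable.ofNat (List ℕ) (encode t)).length)
          (Denumerable.ofNat (List ℕ) (encode t))) ||
      UR (i a) (Nat.pair (m a) (k' a))
        (pfx (x a) (Denumerable.ofNat (List ℕ) (encode t)).length)
        (img h (Denumerable.ofNat (List ℕ) (encode t)))) = true at h1
    rw [Denumerable.ofNat_encode, Bool.or_eq_true, Bool.not_eq_true'] at h1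
    unfold T at ht ⊢
    rw [img_length]
    rcases h1 with h1 | h1
    · rw [ht] at h1
      exact absurd h1 (by simp)
    · exact h1

/-- The effectively closed set with index `n`. -/
def Yn (n : ℕ) (z : ℕ → ℕ) : Prop :=
  ∀ l, UR n n (pfx (fun _ => 0) l) (pfx z l) = true

theorem GF.zero : GF (fun _ : α => (fun _ => 0 : ℕ → ℕ)) :=
  GF.curry (F := fun _ : α × ℕ => 0) (CN.const 0)

theorem Cl_Yn {n : α → ℕ} {z : α → ℕ → ℕ} (hn : CN n) (hz : GF z) :
    Cl (fun a => Yn (n a) (z a)) := by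
  refine Cl.allN (P := fun c : α × ℕ =>
    UR (n c.1) (n c.1) (pfx (fun _ => 0) c.2) (pfx (z c.1) c.2) = true) (Cl.dec ?_)
  exact CN_UR (hn.comp GF.fst) (hn.comp GF.fst) (CN.pfx GF.zero (CN.nat GF.snd))
    (CN.pfx (hz.comp GF.fst) (CN.nat GF.snd))

/-- Basic lemma: for every nonempty `S11` set `X` there is a nonempty effectively closed set `Y`
such that no function with an `S11` graph maps `X` into `Y`. -/
theorem basic {X : (ℕ → ℕ) → Prop} (hX : S11 X) (hne : ∃ x, X x) :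
    ∃ Y : (ℕ → ℕ) → Prop, Cl Y ∧ (∃ y, Y y) ∧
      ∀ f : (ℕ → ℕ) → (ℕ → ℕ), S11 (fun p : (ℕ → ℕ) × (ℕ → ℕ) => f p.1 = p.2) →
        ∃ x, X x ∧ ¬ Y (f x) := by
  -- the set of indices
  let NN : ℕ → Prop := fun n => ∀ i : ℕ, ∃ x z : ℕ → ℕ, X x ∧
    (∀ m k : ℕ, Leq (T i x m (z m)) (T i x m k)) ∧ ¬ Yn n z
  have hNN : S11 NN := by
    have h1 : S11 (fun c : ((ℕ × ℕ) × (ℕ → ℕ)) × (ℕ → ℕ) => X c.1.2 ∧
        (∀ m k : ℕ, Leq (T c.1.1.2 c.1.2 m (c.2 m)) (T c.1.1.2 c.1.2 m k)) ∧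
        ¬ Yn c.1.1.1 c.2) := by
      refine S11.and (hX.comp (GF.snd.comp GF.fst)) (S11.and ?_ ?_)
      · refine S11.allN (P := fun d : (((ℕ × ℕ) × (ℕ → ℕ)) × (ℕ → ℕ)) × ℕ =>
          ∀ k : ℕ, Leq (T d.1.1.1.2 d.1.1.2 d.2 (d.1.2 d.2)) (T d.1.1.1.2 d.1.1.2 d.2 k)) ?_
        refine S11.allN (P := fun e : ((((ℕ × ℕ) × (ℕ → ℕ)) × (ℕ → ℕ)) × ℕ) × ℕ =>
          Leq (T e.1.1.1.1.2 e.1.1.1.2 e.1.2 (e.1.1.2 e.1.2))
            (T e.1.1.1.1.2 e.1.1.1.2 e.1.2 e.2)) ?_
        have g1 : GF (fun e : ((((ℕ × ℕ) × (ℕ → ℕ)) × (ℕ → ℕ)) × ℕ) × ℕ => e.1.1) :=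
          GF.fst.comp GF.fst
        exact S11_Leq (CN.nat (GF.snd.comp (GF.fst.comp (GF.fst.comp g1))))
          (CN.nat (GF.snd.comp GF.fst))
          (CN.app (GF.snd.comp g1) (CN.nat (GF.snd.comp GF.fst)))
          (CN.nat GF.snd) (GF.snd.comp (GF.fst.comp g1))
      · exact S11.not_cl (Cl_Yn (CN.nat (GF.fst.comp (GF.fst.comp GF.fst))) GF.snd)
    have h2 : S11 (fun c : ℕ × ℕ => ∃ x z : ℕ → ℕ, X x ∧
        (∀ m k : ℕ, Leq (T c.2 x m (z m)) (T c.2 x m k)) ∧ ¬ Yn c.1 z) :=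
      S11.exR (S11.exR h1)
    exact S11.allN h2
  obtain ⟨n, hn⟩ := universal (P := fun p : (ℕ → ℕ) × ℕ => NN p.2) (hNN.comp GF.snd)
  have hkey : NN n ↔ ∃ p, Yn n p := hn (fun _ => 0) n
  have hYne : ∃ y, Yn n y := by
    by_contra hcon
    have h1 : ¬ NN n := fun h => hcon (hkey.mp h)
    apply h1
    intro i
    obtain ⟨x, hx⟩ := hne
    have hmin : ∀ m, ∃ k, ∀ k', Sim (T i x m k) (T i x m k') [] [] := fun m =>
      exists_min (T := fun k => T i x m k) (fun k => UR_nil _ _ _)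
    choose z hz using hmin
    refine ⟨x, z, hx, fun m k => ?_, fun h => hcon ⟨z, h⟩⟩
    exact (hz m k).leq (fun t a h => UR_closed h) (UR_nil _ _ _)
  refine ⟨Yn n, Cl_Yn (CN.const n) GF.id, hYne, ?_⟩
  intro f hf
  -- an index for the complement of the graph
  have hP : S11 (fun p : (ℕ → ℕ) × ℕ => ∃ y, f p.1 = y ∧ y p.2.unpair.1 ≠ p.2.unpair.2) := by
    refine S11.exR (P := fun q : ((ℕ → ℕ) × ℕ) × (ℕ → ℕ) =>
      f q.1.1 = q.2 ∧ q.2 q.1.2.unpair.1 ≠ q.1.2.unpair.2) ?_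
    refine S11.and (hf.comp (F := fun q : ((ℕ → ℕ) × ℕ) × (ℕ → ℕ) => (q.1.1, q.2))
      (GF.pair (GF.fst.comp GF.fst) GF.snd)) ?_
    have hu : CN (fun q : ((ℕ → ℕ) × ℕ) × (ℕ → ℕ) => q.1.2.unpair) :=
      CN.prim Primrec.unpair (CN.nat (GF.snd.comp GF.fst))
    have hu1 : CN (fun q : ((ℕ → ℕ) × ℕ) × (ℕ → ℕ) => q.1.2.unpair.1) := CN.prim Primrec.fst hu
    have hu2 : CN (fun q : ((ℕ → ℕ) × ℕ) × (ℕ → ℕ) => q.1.2.unpair.2) := CN.prim Primrec.snd hu
    have hd : CN (fun q : ((ℕ → ℕ) × ℕ) × (ℕ → ℕ) =>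
        decide (¬ (q.2 q.1.2.unpair.1 = q.1.2.unpair.2))) :=
      CN.prim2 (f := fun a b : ℕ => decide (¬ (a = b))) (Primrec.eq.not.decide)
        (CN.app GF.snd hu1) hu2
    exact (S11.dec hd).of_iff fun q => by simp
  obtain ⟨i, hi⟩ := universal hP
  have hNNn : NN n := hkey.mpr hYne
  obtain ⟨x, z, hx, hmin, hz⟩ := hNNn i
  refine ⟨x, hx, ?_⟩
  have hill : ∀ m k, f x m ≠ k ↔ Ill (T i x m k) := by
    intro m k
    have h1 := hi x (Nat.pair m k)
    simp only [Nat.unpair_pair] at h1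
    have h2 : (∃ y, f x = y ∧ y m ≠ k) ↔ f x m ≠ k :=
      ⟨fun ⟨y, e, h⟩ => by rw [e]; exact h, fun h => ⟨_, rfl, h⟩⟩
    rw [← h2, h1]
    refine exists_congr fun p => forall_congr' fun l => ?_
    unfold T
    rw [pfx_length]
  have hzf : z = f x := by
    funext m
    by_contra hne'
    have h1 : Ill (T i x m (z m)) := (hill m (z m)).mp (fun e => hne' e.symm)
    have h2 : Ill (T i x m (f x m)) := (hmin m (f x m)).ill h1
    exact (hill m (f x m)).mpr h2 rfl
  rw [← hzf]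
  exact hz

end Pool.Agent.Helper750.KL
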