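import Pool.Agent.Helper750.DiagDef
import Pool.Agent.Helper750.Generic

set_option autoImplicit false

/-!
No Delta-1-1 equivalence relation with at least two classes is comparable with all others.
-/

namespace Pool.Agent.Helper750.NoNode

open Encodable Pool.Agent.Helper750.Eff Pool.Agent.Helper750.Basis
  Pool.Agent.Helper750.KL Pool.Agent.Helper750.Sig Pool.Agent.Helper750.Diag Set MeasureTheory

variable {α : Type} [Rep α]

theorem isOpen_pfx (x : ℕ → ℕ) (n : ℕ) : IsOpen {y : ℕ → ℕ | pfx y n = pfx x n} := by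
  have h : {y : ℕ → ℕ | pfx y n = pfx x n} = ⋂ i ∈ Finset.range n, {y : ℕ → ℕ | y i = x i} := by
    ext y
    simp only [mem_ofPred_eq, mem_iInter, Finset.mem_range]
    constructor
    · intro h i hi
      rw [← pfx_getD y hi 0, h, pfx_getD x hi]
    · intro h
      unfold pfx
      exact List.map_congr_left fun i hi => h i (List.mem_range.mp hi)
  rw [h]
  exact isOpen_biInter_finset fun i _ =>
    (isOpen_discrete {x i}).preimage (continuous_apply (A := fun _ : ℕ => ℕ) i)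

theorem isClosed_of_Cl {Q : ((ℕ → ℕ) × (ℕ → ℕ)) × (ℕ → ℕ) → Prop} (hQ : Cl Q) :
    IsClosed {a | Q a} := by
  obtain ⟨R, _, h⟩ := hQ
  have e : {a | Q a} = ⋂ n, {a | R (Rep.ap a n, n) = true} := by
    ext a
    simp only [mem_ofPred_eq, mem_iInter]
    exact h a
  rw [e]
  refine isClosed_iInter fun n => ?_
  rw [← isOpen_compl_iff, isOpen_iff_mem_nhds]
  rintro ⟨⟨x, y⟩, w⟩ ha
  have h1 : IsOpen (({u : ℕ → ℕ | pfx u n = pfx x n} ×ˢ {u : ℕ → ℕ | pfx u n = pfx y n}) ×ˢ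
      {u : ℕ → ℕ | pfx u n = pfx w n}) :=
    ((isOpen_pfx x n).prod (isOpen_pfx y n)).prod (isOpen_pfx w n)
  refine Filter.mem_of_superset (h1.mem_nhds ⟨⟨rfl, rfl⟩, rfl⟩) ?_
  rintro ⟨⟨x', y'⟩, w'⟩ ⟨⟨hx, hy⟩, hw⟩
  simp only [mem_compl_iff, mem_ofPred_eq] at ha hx hy hw ⊢
  have e1 : Rep.ap ((x', y'), w') n = ((pfx x' n, pfx y' n), pfx w' n) := rfl
  have e2 : Rep.ap ((x, y), w) n = ((pfx x n, pfx y n), pfx w n) := rfl
  rw [e1, hx, hy, hw, ← e2]
  exact ha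

theorem polish3 : PolishSpace (((ℕ → ℕ) × (ℕ → ℕ)) × (ℕ → ℕ)) := PolishSpace.mk

theorem analytic_of_S11 {P : (ℕ → ℕ) × (ℕ → ℕ) → Prop} (hP : S11 P) : AnalyticSet {p | P p} := by
  obtain ⟨Q, hQ, h⟩ := hP
  have e : {p | P p} = Prod.fst '' {a | Q a} := by
    ext p
    simp only [mem_ofPred_eq, mem_image, Prod.exists, exists_and_right, exists_eq_right]
    exact h p
  rw [e]
  have := polish3
  exact (isClosed_of_Cl hQ).analyticSet.image_of_continuous continuous_fst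

theorem measurable_fiber {f : (ℕ → ℕ) → (ℕ → ℕ)}
    (hf : S11 (fun p : (ℕ → ℕ) × (ℕ → ℕ) => f p.1 = p.2)) (n k : ℕ) :
    MeasurableSet {x : ℕ → ℕ | f x n = k} := by
  have key : ∀ P : ℕ → Prop, (D11 (fun m : ℕ => P m)) → AnalyticSet {x : ℕ → ℕ | P (f x n)} := by
    intro P hP
    have h1 : S11 (fun p : (ℕ → ℕ) × (ℕ → ℕ) => f p.1 = p.2 ∧ P (p.2 n)) :=
      hf.and (hP.1.comp (GF.nat (CN.app GF.snd (CN.const n))))
    have e : {x : ℕ → ℕ | P (f x n)} =
        Prod.fst '' {p : (ℕ → ℕ) × (ℕ → ℕ) | f p.1 = p.2 ∧ P (p.2 n)} := by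
      ext x
      simp only [mem_ofPred_eq, mem_image, Prod.exists, exists_and_right, exists_eq_right]
      constructor
      · intro h; exact ⟨_, rfl, h⟩
      · rintro ⟨y, rfl, h⟩; exact h
    rw [e]
    exact (analytic_of_S11 h1).image_of_continuous continuous_fst
  have hk : D11 (fun m : ℕ => m = k) := D11_eq (CN.nat GF.id) (CN.const k)
  exact (key (fun m => m = k) hk).measurableSet_of_compl (key (fun m => ¬ m = k) hk.not)

/-- glueing an equivalence relation on `A` with one more class -/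
def glue (A : (ℕ → ℕ) → Prop) (R : (ℕ → ℕ) → (ℕ → ℕ) → Prop) (p q : ℕ → ℕ) : Prop :=
  (A p ∧ A q ∧ R p q) ∨ (¬ A p ∧ ¬ A q)

theorem glue_equiv {A : (ℕ → ℕ) → Prop} {R : (ℕ → ℕ) → (ℕ → ℕ) → Prop} (hR : Equivalence R) :
    Equivalence (glue A R) := by
  refine ⟨fun p => ?_, fun {p q} h => ?_, fun {p q r} h h' => ?_⟩
  · by_cases hp : A p
    · exact Or.inl ⟨hp, hp, hR.refl _⟩
    · exact Or.inr ⟨hp, hp⟩
  · rcases h with ⟨h1, h2, h3⟩ | ⟨h1, h2⟩
    · exact Or.inl ⟨h2, h1, hR.symm h3⟩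
    · exact Or.inr ⟨h2, h1⟩
  · rcases h with ⟨h1, h2, h3⟩ | ⟨h1, h2⟩ <;> rcases h' with ⟨k1, k2, k3⟩ | ⟨k1, k2⟩
    · exact Or.inl ⟨h1, k2, hR.trans h3 k3⟩
    · exact absurd h2 k1
    · exact absurd k1 h2
    · exact Or.inr ⟨h1, k2⟩

theorem glue_D11 {A : (ℕ → ℕ) → Prop} {R : (ℕ → ℕ) → (ℕ → ℕ) → Prop} (hA : D11 A)
    (hR : D11 (fun p : (ℕ → ℕ) × (ℕ → ℕ) => R p.1 p.2)) :
    D11 (fun p : (ℕ → ℕ) × (ℕ → ℕ) => glue A R p.1 p.2) :=
  ((hA.comp GF.fst).and ((hA.comp GF.snd).and hR)).or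
    ((hA.comp GF.fst).not.and (hA.comp GF.snd).not)

/-- `b` is a hyperarithmetic real (its singleton is Sigma-1-1). -/
def Good (b : ℕ → ℕ) : Prop := S11 (fun y : ℕ → ℕ => b = y)

theorem good_map {b : ℕ → ℕ} (hb : Good b) {f : (ℕ → ℕ) → (ℕ → ℕ)}
    (hf : S11 (fun p : (ℕ → ℕ) × (ℕ → ℕ) => f p.1 = p.2)) : Good (f b) := by
  have h1 : S11 (fun q : (ℕ → ℕ) × (ℕ → ℕ) => b = q.2 ∧ f q.2 = q.1) :=
    (hb.comp GF.snd).and (hf.comp (F := fun q : (ℕ → ℕ) × (ℕ → ℕ) => (q.2, q.1))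
      (GF.pair GF.snd GF.fst))
  refine (S11.exR h1).of_iff fun y => ?_
  constructor
  · intro h
    exact ⟨b, rfl, h⟩
  · rintro ⟨x, e, h⟩
    simp only at e h
    rw [e]
    exact h

theorem graph_gf {g : (ℕ → ℕ) → (ℕ → ℕ)} (hg : GF g) :
    S11 (fun p : (ℕ → ℕ) × (ℕ → ℕ) => g p.1 = p.2) :=
  S11.cl (Cl_eq (hg.comp GF.fst) GF.snd)

theorem graph_const {b : ℕ → ℕ} (hb : Good b) :
    S11 (fun p : (ℕ → ℕ) × (ℕ → ℕ) => (fun _ : ℕ → ℕ => b) p.1 = p.2) := hb.comp GF.snd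

theorem graph_comp {f g : (ℕ → ℕ) → (ℕ → ℕ)}
    (hf : S11 (fun p : (ℕ → ℕ) × (ℕ → ℕ) => f p.1 = p.2)) (hg : GF g) :
    S11 (fun p : (ℕ → ℕ) × (ℕ → ℕ) => (fun x : ℕ → ℕ => g (f x)) p.1 = p.2) := by
  have h2 : S11 (fun q : ((ℕ → ℕ) × (ℕ → ℕ)) × (ℕ → ℕ) => f q.1.1 = q.2 ∧ g q.2 = q.1.2) :=
    (hf.comp (F := fun q : ((ℕ → ℕ) × (ℕ → ℕ)) × (ℕ → ℕ) => (q.1.1, q.2))
      (GF.pair (GF.fst.comp GF.fst) GF.snd)).and
      (S11.cl (Cl_eq (hg.comp GF.snd) (GF.snd.comp GF.fst)))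
  refine (S11.exR h2).of_iff fun p => ?_
  constructor
  · intro h
    exact ⟨_, rfl, h⟩
  · rintro ⟨y, e, h⟩
    simp only at e h ⊢
    rw [e]
    exact h

theorem no_node (E : (ℕ → ℕ) → (ℕ → ℕ) → Prop) (hEq : Equivalence E)
    (hE : D11 (fun p : (ℕ → ℕ) × (ℕ → ℕ) => E p.1 p.2)) (h2 : ∃ x y, ¬ E x y) :
    ∃ F : (ℕ → ℕ) → (ℕ → ℕ) → Prop, Equivalence F ∧
      D11 (fun p : (ℕ → ℕ) × (ℕ → ℕ) => F p.1 p.2) ∧
      (¬ ∃ f : (ℕ → ℕ) → (ℕ → ℕ), S11 (fun p : (ℕ → ℕ) × (ℕ → ℕ) => f p.1 = p.2) ∧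
        ∀ x y, E x y ↔ F (f x) (f y)) ∧
      (¬ ∃ f : (ℕ → ℕ) → (ℕ → ℕ), S11 (fun p : (ℕ → ℕ) × (ℕ → ℕ) => f p.1 = p.2) ∧
        ∀ x y, F x y ↔ E (f x) (f y)) := by
  classical
  let O : ℕ → ℕ := fun _ => 0
  let I : ℕ → ℕ := fun _ => 1
  have hO : Good O := S11.cl (Cl_eq GF.zero GF.id)
  have hI : Good I := S11.cl (Cl_eq (GF.curry (F := fun _ : (ℕ → ℕ) × ℕ => 1) (CN.const 1)) GF.id)
  have hzero : D11 (fun p : (ℕ → ℕ) × (ℕ → ℕ) => (p.1 0 = 0 ↔ p.2 0 = 0)) := by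
    have a1 : D11 (fun p : (ℕ → ℕ) × (ℕ → ℕ) => p.1 0 = 0) :=
      D11_eq (CN.app GF.fst (CN.const 0)) (CN.const 0)
    have a2 : D11 (fun p : (ℕ → ℕ) × (ℕ → ℕ) => p.2 0 = 0) :=
      D11_eq (CN.app GF.snd (CN.const 0)) (CN.const 0)
    refine ((a1.and a2).or (a1.not.and a2.not)).of_iff fun p => ?_
    tauto
  by_cases hA : ∃ b, Good b ∧ ¬ E O b
  · -- there are two inequivalent hyperarithmetic reals
    obtain ⟨b, hb, hOb⟩ := hA
    obtain ⟨Z, hZcl, ⟨z, hz⟩, hZ⟩ := basic (X := fun _ => True)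
      ((S11.dec (CN.const true)).of_iff fun _ => by simp) ⟨O, trivial⟩
    have hZgood : ∀ b, Good b → ¬ Z b := by
      intro b hb
      obtain ⟨_, _, h⟩ := hZ (fun _ => b) (graph_const hb)
      exact h
    have hZD : D11 (fun p : ℕ → ℕ => Z (evn p)) := (D11.cl hZcl).comp (GF.evn GF.id)
    have hGD : D11 (fun p : (ℕ → ℕ) × (ℕ → ℕ) => G E (odd p.1) (odd p.2)) :=
      (G_D11 hE).comp (F := fun p : (ℕ → ℕ) × (ℕ → ℕ) => (odd p.1, odd p.2))
        (GF.pair (GF.odd GF.fst) (GF.odd GF.snd))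
    refine ⟨glue (fun p => Z (evn p)) (fun p q => G E (odd p) (odd q)), glue_equiv ?_,
      glue_D11 hZD hGD, ?_, ?_⟩
    · exact ⟨fun _ => (G_equiv E).refl _, fun h => (G_equiv E).symm h,
        fun h h' => (G_equiv E).trans h h'⟩
    · rintro ⟨f, hf, hred⟩
      apply hOb
      rw [hred]
      right
      exact ⟨hZgood _ (good_map (good_map hO hf) (graph_gf (GF.evn GF.id))),
        hZgood _ (good_map (good_map hb hf) (graph_gf (GF.evn GF.id)))⟩
    · rintro ⟨f, hf, hred⟩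
      refine not_reducible E (φ := fun x => f (join z x)) (fun n k => ?_) fun x y => ?_
      · have h1 := measurable_fiber hf n k
        have h3 : Continuous (fun x : ℕ → ℕ => join z x) := by
          refine continuous_pi fun n => ?_
          unfold join
          by_cases h : n % 2 = 0
          · simp only [h, if_true]; exact continuous_const
          · simp only [h, if_false]; exact continuous_apply _
        exact (h1.preimage h3.measurable).baireMeasurableSet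
      · rw [← hred]
        unfold glue
        simp only [evn_join, odd_join, hz, true_and, not_true_eq_false, false_and, or_false]
  · push Not at hA
    by_cases hB : ∃ x y, ¬ E O x ∧ ¬ E O y ∧ ¬ E x y
    · -- at least three classes, all hyperarithmetic reals in one class
      obtain ⟨x, y, hx, hy, hxy⟩ := hB
      refine ⟨fun p q => (p 0 = 0 ↔ q 0 = 0), ⟨fun _ => Iff.rfl, fun h => h.symm,
        fun h h' => h.trans h'⟩, hzero, ?_, ?_⟩
      · rintro ⟨f, _, hred⟩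
        rw [hred] at hx hy hxy
        tauto
      · rintro ⟨f, hf, hred⟩
        have h3 : ¬ (O 0 = 0 ↔ I 0 = 0) := by simp [O, I]
        apply h3
        refine (hred O I).mpr ?_
        exact hEq.trans (hEq.symm (hA _ (good_map hO hf))) (hA _ (good_map hI hf))
    · -- exactly two classes
      push Not at hB
      have hXne : ∃ x, ¬ E O x := by
        by_contra hcon
        push Not at hcon
        obtain ⟨x, y, hxy⟩ := h2
        exact hxy (hEq.trans (hEq.symm (hcon x)) (hcon y))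
      have hX : S11 (fun x : ℕ → ℕ => ¬ E O x) :=
        hE.2.comp (F := fun x : ℕ → ℕ => (O, x)) (GF.pair GF.zero GF.id)
      obtain ⟨Y, hYcl, ⟨y0, hy0⟩, hY⟩ := basic hX hXne
      have hYgood : ∀ b, Good b → ¬ Y b := by
        intro b hb
        obtain ⟨_, _, h⟩ := hY (fun _ => b) (graph_const hb)
        exact h
      have hYD : D11 (fun p : ℕ → ℕ => Y (evn p)) := (D11.cl hYcl).comp (GF.evn GF.id)
      have hRD : D11 (fun p : (ℕ → ℕ) × (ℕ → ℕ) => (odd p.1 0 = 0 ↔ odd p.2 0 = 0)) :=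
        hzero.comp (F := fun p : (ℕ → ℕ) × (ℕ → ℕ) => (odd p.1, odd p.2))
          (GF.pair (GF.odd GF.fst) (GF.odd GF.snd))
      refine ⟨glue (fun p => Y (evn p)) (fun p q => (odd p 0 = 0 ↔ odd q 0 = 0)),
        glue_equiv ⟨fun _ => Iff.rfl, fun h => h.symm, fun h h' => h.trans h'⟩,
        glue_D11 hYD hRD, ?_, ?_⟩
      · rintro ⟨f, hf, hred⟩
        have h3 : ¬ Y (evn (f O)) := hYgood _ (good_map (good_map hO hf) (graph_gf (GF.evn GF.id)))
        obtain ⟨x, hx, hYx⟩ := hY (fun x => evn (f x)) (graph_comp hf (GF.evn GF.id))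
        apply hx
        rw [hred]
        exact Or.inr ⟨h3, hYx⟩
      · rintro ⟨f, hf, hred⟩
        have hYO : ¬ Y O := hYgood O hO
        have e1 : ¬ glue (fun p => Y (evn p)) (fun p q => (odd p 0 = 0 ↔ odd q 0 = 0))
            (join O O) (join y0 O) := by
          unfold glue; simp [hYO, hy0]
        have e2 : ¬ glue (fun p => Y (evn p)) (fun p q => (odd p 0 = 0 ↔ odd q 0 = 0))
            (join O O) (join y0 I) := by
          unfold glue; simp [hYO, hy0]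
        have e3 : ¬ glue (fun p => Y (evn p)) (fun p q => (odd p 0 = 0 ↔ odd q 0 = 0))
            (join y0 O) (join y0 I) := by
          unfold glue; simp [hy0, O, I]
        rw [hred] at e1 e2 e3
        by_cases c1 : E O (f (join y0 O))
        · by_cases c0 : E O (f (join O O))
          · exact e1 (hEq.trans (hEq.symm c0) c1)
          · by_cases c2 : E O (f (join y0 I))
            · exact e3 (hEq.trans (hEq.symm c1) c2)
            · exact e2 (hB _ _ c0 c2)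
        · by_cases c2 : E O (f (join y0 I))
          · by_cases c0 : E O (f (join O O))
            · exact e2 (hEq.trans (hEq.symm c0) c2)
            · exact e1 (hB _ _ c0 c1)
          · exact e3 (hB _ _ c1 c2)

end Pool.Agent.Helper750.NoNode
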