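import Pool.Agent.Helper750.KL

set_option autoImplicit false

namespace Pool.Agent.Helper750.Sig

open Encodable Nat.Partrec Pool.Agent.Helper750.Eff Pool.Agent.Helper750.Basis
  Pool.Agent.Helper750.KL

theorem pfx_eq_ofFn (x : ℕ → ℕ) (n : ℕ) : List.ofFn (fun i : Fin n => x i.val) = pfx x n := by
  apply List.ext_getElem
  · simp
  · intro i h1 h2
    simp [pfx]

/-- Lightface Sigma-1-1 relations, in terms of computable predicates. -/
def SigC (S : (ℕ → ℕ) → (ℕ → ℕ) → Prop) : Prop :=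
  ∃ R : List ℕ × List ℕ × List ℕ → Bool, Computable R ∧
    ∀ x y : ℕ → ℕ, S x y ↔ ∃ w : ℕ → ℕ, ∀ n : ℕ,
      R (List.ofFn (fun i : Fin n => x i.val), List.ofFn (fun i : Fin n => y i.val),
         List.ofFn (fun i : Fin n => w i.val)) = true

def arg3 (s t u : List ℕ) (j : ℕ) : List ℕ × List ℕ × List ℕ := (s.take j, t.take j, u.take j)

theorem SigC.s11 {S : (ℕ → ℕ) → (ℕ → ℕ) → Prop} (hS : SigC S) :
    S11 (fun p : (ℕ → ℕ) × (ℕ → ℕ) => S p.1 p.2) := by
  obtain ⟨R, hR, hS⟩ := hS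
  obtain ⟨c, hc⟩ := Code.exists_code.mp hR
  have hev : ∀ q : List ℕ × List ℕ × List ℕ, c.eval (encode q) = Part.some (encode (R q)) := by
    intro q
    rw [hc]
    beta_reduce
    rw [encodek, Part.coe_some, Part.bind_some]
    exact Part.map_some _ _
  simp only [pfx_eq_ofFn] at hS
  refine ⟨fun p => ∀ n, R (pfx p.1.1 n, pfx p.1.2 n, pfx p.2 n) = true, ?_, fun p => hS p.1 p.2⟩
  -- the closed matrix is given by a primitive recursive predicate
  have hPr : PrimrecRel fun (j : ℕ) (p : ((List ℕ × List ℕ) × List ℕ) × ℕ) =>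
      Code.evaln p.2 c (encode (arg3 p.1.1.1 p.1.1.2 p.1.2 j)) ≠ some 0 := by
    have hs : Primrec fun q : ℕ × (((List ℕ × List ℕ) × List ℕ) × ℕ) => q.2.1.1.1 :=
      Primrec.fst.comp (Primrec.fst.comp (Primrec.fst.comp Primrec.snd))
    have ht : Primrec fun q : ℕ × (((List ℕ × List ℕ) × List ℕ) × ℕ) => q.2.1.1.2 :=
      Primrec.snd.comp (Primrec.fst.comp (Primrec.fst.comp Primrec.snd))
    have hu : Primrec fun q : ℕ × (((List ℕ × List ℕ) × List ℕ) × ℕ) => q.2.1.2 :=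
      Primrec.snd.comp (Primrec.fst.comp Primrec.snd)
    have harg : Primrec fun q : ℕ × (((List ℕ × List ℕ) × List ℕ) × ℕ) =>
        arg3 q.2.1.1.1 q.2.1.1.2 q.2.1.2 q.1 :=
      Primrec.pair (Primrec.list_take.comp Primrec.fst hs)
        (Primrec.pair (Primrec.list_take.comp Primrec.fst ht)
          (Primrec.list_take.comp Primrec.fst hu))
    have hev' : Primrec fun q : ℕ × (((List ℕ × List ℕ) × List ℕ) × ℕ) =>
        Code.evaln q.2.2 c (encode (arg3 q.2.1.1.1 q.2.1.1.2 q.2.1.2 q.1)) :=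
      Code.primrec_evaln.comp (Primrec.pair (Primrec.pair (Primrec.snd.comp Primrec.snd)
        (Primrec.const c)) (Primrec.encode.comp harg))
    exact (Primrec.eq.comp hev' (Primrec.const (some 0))).not
  have h2 := (PrimrecRel.forall_mem_list hPr).comp
    (f := fun p : ((List ℕ × List ℕ) × List ℕ) × ℕ => List.range (p.2 + 1)) (g := fun p => p)
    (Primrec.list_range.comp (Primrec.succ.comp Primrec.snd)) Primrec.id
  have h3 : PrimrecPred fun p : ((List ℕ × List ℕ) × List ℕ) × ℕ => ∀ j < p.2 + 1,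
      Code.evaln p.2 c (encode (arg3 p.1.1.1 p.1.1.2 p.1.2 j)) ≠ some 0 :=
    h2.of_eq fun p => by simp only [List.mem_range]
  refine ⟨_, h3.decide, fun p => ?_⟩
  obtain ⟨⟨x, y⟩, w⟩ := p
  have hap : ∀ n, Rep.ap ((x, y), w) n = ((pfx x n, pfx y n), pfx w n) := fun n => rfl
  simp only [hap, decide_eq_true_eq, Nat.lt_succ_iff]
  have harg3 : ∀ n j, j ≤ n → arg3 (pfx x n) (pfx y n) (pfx w n) j
      = (pfx x j, pfx y j, pfx w j) := by
    intro n j hj
    unfold arg3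
    rw [pfx_take x hj, pfx_take y hj, pfx_take w hj]
  constructor
  · intro h n j hj hcon
    have hcon' : Code.evaln n c (encode (arg3 (pfx x n) (pfx y n) (pfx w n) j)) = some 0 := hcon
    rw [harg3 n j hj] at hcon'
    have h2 := Code.evaln_sound hcon'
    rw [hev, h j] at h2
    simp at h2
  · intro h j
    by_contra hne
    rw [Bool.not_eq_true] at hne
    have h1 : (0 : ℕ) ∈ c.eval (encode (pfx x j, pfx y j, pfx w j)) := by
      rw [hev, hne]
      simp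
    obtain ⟨k, hk⟩ := Code.evaln_complete.mp h1
    refine h (max k j) j (le_max_right _ _) ?_
    rw [harg3 _ j (le_max_right _ _)]
    exact Code.evaln_mono (le_max_left _ _) hk

theorem SigC.of_s11 {S : (ℕ → ℕ) → (ℕ → ℕ) → Prop}
    (hS : S11 (fun p : (ℕ → ℕ) × (ℕ → ℕ) => S p.1 p.2)) : SigC S := by
  obtain ⟨Q, ⟨R, hR, hQ⟩, hPQ⟩ := hS
  have hR0 : Primrec (fun q : ((List ℕ × List ℕ) × List ℕ) × ℕ => R q) := hR
  refine ⟨fun p => R (((p.1, p.2.1), p.2.2), p.1.length), ?_, fun x y => ?_⟩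
  · refine Primrec.to_comp ?_
    exact hR0.comp (Primrec.pair (Primrec.pair (Primrec.pair Primrec.fst
      (Primrec.fst.comp Primrec.snd)) (Primrec.snd.comp Primrec.snd))
      (Primrec.list_length.comp Primrec.fst))
  · have h1 := hPQ (x, y)
    simp only at h1
    rw [h1]
    refine exists_congr fun w => ?_
    rw [hQ]
    refine forall_congr' fun n => ?_
    simp only [pfx_eq_ofFn, pfx_length]
    rfl

theorem sigC_iff {S : (ℕ → ℕ) → (ℕ → ℕ) → Prop} :
    SigC S ↔ S11 (fun p : (ℕ → ℕ) × (ℕ → ℕ) => S p.1 p.2) := ⟨SigC.s11, SigC.of_s11⟩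

/-! ### Delta-1-1 predicates -/

variable {α β : Type} [Rep α] [Rep β]

def D11 (P : α → Prop) : Prop := S11 P ∧ S11 (fun a => ¬ P a)

theorem D11.and {P Q : α → Prop} (hP : D11 P) (hQ : D11 Q) : D11 (fun a => P a ∧ Q a) :=
  ⟨hP.1.and hQ.1, (hP.2.or hQ.2).of_iff fun _ => not_and_or⟩

theorem D11.or {P Q : α → Prop} (hP : D11 P) (hQ : D11 Q) : D11 (fun a => P a ∨ Q a) :=
  ⟨hP.1.or hQ.1, (hP.2.and hQ.2).of_iff fun _ => not_or⟩

theorem D11.not {P : α → Prop} (hP : D11 P) : D11 (fun a => ¬ P a) :=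
  ⟨hP.2, hP.1.of_iff fun _ => not_not⟩

theorem D11.comp {P : β → Prop} {F : α → β} (hP : D11 P) (hF : GF F) : D11 (fun a => P (F a)) :=
  ⟨hP.1.comp hF, hP.2.comp hF⟩

theorem D11.cl {P : α → Prop} (hP : Cl P) : D11 P := ⟨S11.cl hP, S11.not_cl hP⟩

theorem D11.dec {F : α → Bool} (hF : CN F) : D11 (fun a => F a = true) := D11.cl (Cl.dec hF)

theorem D11.of_iff {P Q : α → Prop} (hP : D11 P) (h : ∀ a, Q a ↔ P a) : D11 Q :=
  ⟨hP.1.of_iff h, hP.2.of_iff fun a => not_congr (h a)⟩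

theorem Cl_eq {F G : α → ℕ → ℕ} (hF : GF F) (hG : GF G) : Cl (fun a => F a = G a) := by
  have h1 : CN (fun c : α × ℕ => decide (F c.1 c.2 = G c.1 c.2)) :=
    CN.prim2 (f := fun a b : ℕ => decide (a = b)) (Primrec.eq.decide)
      (CN.app (hF.comp GF.fst) (CN.nat GF.snd)) (CN.app (hG.comp GF.fst) (CN.nat GF.snd))
  refine (Cl.allN (Cl.dec h1)).of_iff fun a => ?_
  simp only [decide_eq_true_eq]
  exact funext_iff

/-- The graph of a total function is `S11` iff it is Delta-1-1. -/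
theorem graph_not {f : (ℕ → ℕ) → (ℕ → ℕ)}
    (hf : S11 (fun p : (ℕ → ℕ) × (ℕ → ℕ) => f p.1 = p.2)) :
    S11 (fun p : (ℕ → ℕ) × (ℕ → ℕ) => ¬ f p.1 = p.2) := by
  have h1 : S11 (fun q : ((ℕ → ℕ) × (ℕ → ℕ)) × (ℕ → ℕ) => f q.1.1 = q.2 ∧ ¬ q.2 = q.1.2) :=
    (hf.comp (F := fun q : ((ℕ → ℕ) × (ℕ → ℕ)) × (ℕ → ℕ) => (q.1.1, q.2))
      (GF.pair (GF.fst.comp GF.fst) GF.snd)).and
      (S11.not_cl (Cl_eq GF.snd (GF.snd.comp GF.fst)))
  refine (S11.exR h1).of_iff fun p => ?_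
  constructor
  · intro h
    exact ⟨_, rfl, h⟩
  · rintro ⟨y, e, h⟩
    simp only at e h
    rw [e]
    exact h

end Pool.Agent.Helper750.Sig
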